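import Mathlib

/-!
The last block: the last `μ` rows are exhausted simultaneously by points of multiplicity `μ`.
-/

set_option autoImplicit false

namespace Pool.Agent.Helper43.Ah

open Finset

section block

variable (n : ℤ) (ρ : ℕ → ℤ)

/-- the cut function -/
def Gc (w : ℕ) : ℤ := ∑ t ∈ range w, (ρ t - n * (t + 1))

lemma Gc_succ (w : ℕ) : Gc n ρ (w + 1) = Gc n ρ w + ρ w - n * (w + 1) := by
  unfold Gc; rw [sum_range_succ]; ring

lemma Gc_total {μ : ℕ} (htot : 2 * ∑ t ∈ range μ, ρ t = n * μ * (μ + 1)) : Gc n ρ μ = 0 := by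
  have h : ∀ w : ℕ, 2 * Gc n ρ w = 2 * ∑ t ∈ range w, ρ t - n * w * (w + 1) := by
    intro w
    induction w with
    | zero => simp [Gc]
    | succ w ih => rw [Gc_succ, sum_range_succ]; push_cast; linarith
  have := h μ
  rw [htot] at this
  linarith

/-- concavity of the averages -/
lemma H_bound {μ : ℕ} (hσ : ∀ u, 1 ≤ u → u < μ → 3 * (μ : ℤ) ≤ 2 * ρ u - ρ (u + 1) - ρ (u - 1))
    (s : ℕ) (hs : s < μ) : (μ : ℤ) * (s * (s + 1) * (s + 2)) ≤
      s * (s + 3) * ρ s - s * (s + 1) * ρ (s + 1) - n * (s * (s + 1)) - 2 * Gc n ρ s := by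
  induction s with
  | zero => simp [Gc]
  | succ s ih =>
    have h1 := ih (by omega)
    have h2 := hσ (s + 1) (by omega) hs
    rw [Nat.add_sub_cancel] at h2
    rw [Gc_succ]
    push_cast
    have h3 : (0 : ℤ) ≤ ((s : ℤ) + 1) * (s + 2) := by positivity
    nlinarith

/-- the cumulative flow -/
def Tc (w : ℕ) : ℤ := Gc n ρ w / w
/-- the remainder -/
def Zc (w : ℕ) : ℤ := Gc n ρ w % w

lemma TZ (w : ℕ) : (w : ℤ) * Tc n ρ w = Gc n ρ w - Zc n ρ w := by
  unfold Tc Zc
  have := Int.mul_ediv_add_emod (Gc n ρ w) w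
  linarith

lemma Zc_nonneg {w : ℕ} (hw : 1 ≤ w) : 0 ≤ Zc n ρ w := Int.emod_nonneg _ (by omega)
lemma Zc_le {w : ℕ} (hw : 1 ≤ w) : Zc n ρ w ≤ w - 1 := by
  have := Int.emod_lt_of_pos (Gc n ρ w) (show (0 : ℤ) < w by omega)
  unfold Zc; omega

/-- number of points with stage at least `j` -/
def Ya (μ j : ℕ) : ℤ := if j = 0 then n else if j < μ then Tc n ρ (μ - j) - Tc n ρ (μ - j + 1) else 0

lemma Ya_sum {μ : ℕ} (hG : Gc n ρ μ = 0) (k : ℕ) (hk : k < μ) :
    ∑ i ∈ range k, Ya n ρ μ (i + 1) = Tc n ρ (μ - k) := by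
  induction k with
  | zero => simp [Tc, hG]
  | succ k ih =>
    rw [sum_range_succ, ih (by omega)]
    unfold Ya
    rw [if_neg (by omega), if_pos hk, show μ - (k + 1) + 1 = μ - k by omega]
    ring

lemma abel (Y : ℕ → ℤ) (c : ℤ) (k : ℕ) :
    ∑ i ∈ range (k + 1), (Y i - Y (i + 1)) * (c + i) =
      c * Y 0 + ∑ i ∈ range k, Y (i + 1) - (c + k) * Y (k + 1) := by
  induction k with
  | zero => simp; ring
  | succ k ih =>
    rw [sum_range_succ, ih, sum_range_succ _ k]
    push_cast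
    ring

lemma tele (Y : ℕ → ℤ) (a k : ℕ) : ∑ i ∈ Ico a (a + k), (Y i - Y (i + 1)) = Y a - Y (a + k) := by
  induction k with
  | zero => simp
  | succ k ih => rw [← add_assoc, sum_Ico_succ_top (by omega), ih]; ring

theorem block (μ : ℕ) (hμ : 1 ≤ μ) (hn : 0 ≤ n) (h0 : ρ μ = 0)
    (htot : 2 * ∑ t ∈ range μ, ρ t = n * μ * (μ + 1))
    (hσ : ∀ u, 1 ≤ u → u < μ → 3 * (μ : ℤ) ≤ 2 * ρ u - ρ (u + 1) - ρ (u - 1))
    (h1 : ρ 1 ≤ ρ 0 + n) :
    ∃ X z : ℕ → ℤ, (∀ j < μ, 0 ≤ z j ∧ z j ≤ X j) ∧ z (μ - 1) = 0 ∧ ∑ j ∈ range μ, X j = n ∧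
      ∀ j < μ, ∑ i ∈ range μ, X i * (if j < i then (j : ℤ) + 1 else (μ : ℤ) - j + i) - z j +
        (if j = 0 then 0 else z (j - 1)) = ρ (μ - 1 - j) := by
  have hG := Gc_total n ρ htot
  set Y := Ya n ρ μ with hY
  set z : ℕ → ℤ := fun j => if j + 1 < μ then Zc n ρ (μ - 1 - j) else 0 with hz
  have hY0 : Y 0 = n := by simp [hY, Ya]
  have hYμ : Y μ = 0 := by
    simp only [hY, Ya]
    rw [if_neg (by omega), if_neg (by omega)]
  refine ⟨fun j => Y j - Y (j + 1), z, ?_, ?_, ?_, ?_⟩
  · intro j hj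
    by_cases hj1 : j + 1 < μ
    · have hzj : z j = Zc n ρ (μ - 1 - j) := by simp only [hz]; rw [if_pos hj1]
      obtain ⟨s, hs⟩ : ∃ s, μ - 1 - j = s + 1 := ⟨μ - 1 - j - 1, by omega⟩
      rw [hzj]
      refine ⟨Zc_nonneg n ρ (by omega), ?_⟩
      have e1 : Y (j + 1) = Tc n ρ (μ - 1 - j) - Tc n ρ (μ - 1 - j + 1) := by
        simp only [hY, Ya]
        rw [if_neg (by omega), if_pos hj1, show μ - (j + 1) = μ - 1 - j by omega]
      rcases Nat.eq_zero_or_pos j with hj0 | hj0
      · -- first row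
        subst hj0
        simp only [zero_add] at e1 ⊢
        rw [hY0, e1, Nat.sub_zero, show μ - 1 + 1 = μ by omega]
        have hTμ : Tc n ρ μ = 0 := by simp [Tc, hG]
        rw [hTμ, sub_zero]
        have hH := H_bound n ρ hσ (μ - 1) (by omega)
        have hTZ := TZ n ρ (μ - 1)
        have hZ1 := Zc_nonneg n ρ (show 1 ≤ μ - 1 by omega)
        have hZ2 := Zc_le n ρ (show 1 ≤ μ - 1 by omega)
        have hGs := Gc_succ n ρ (μ - 1)
        rw [show μ - 1 + 1 = μ by omega, hG] at hGs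
        rw [show μ - 1 + 1 = μ by omega, h0] at hH
        obtain ⟨v, hv⟩ : ∃ v, μ = v + 2 := ⟨μ - 2, by omega⟩
        subst hv
        rw [show v + 2 - 1 = v + 1 by omega] at *
        push_cast at *
        set a := ρ (v + 1)
        set G1 := Gc n ρ (v + 1)
        set Z1 := Zc n ρ (v + 1)
        set T1 := Tc n ρ (v + 1)
        -- G1 = n (v+2) - a
        have hG1 : G1 = n * (v + 2) - a := by linarith
        rw [hG1] at hH hTZ
        have hv0 : (0 : ℤ) ≤ v := by positivity
        -- from hH : a - n ≥ (v+2)(v+1)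
        have h5 : ((v : ℤ) + 2) * (v + 3) * (a - n) ≥ ((v : ℤ) + 2) * (v + 3) * ((v + 2) * (v + 1)) := by
          nlinarith
        have h6 : a - n ≥ ((v : ℤ) + 2) * (v + 1) := by
          by_contra hcon
          push Not at hcon
          have : ((v : ℤ) + 2) * (v + 3) * (a - n) < ((v : ℤ) + 2) * (v + 3) * ((v + 2) * (v + 1)) :=
            mul_lt_mul_of_pos_left hcon (by positivity)
          linarith
        -- (v+1)(n - T1 - Z1) = a - n - v Z1
        by_contra hcon
        push Not at hcon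
        have h7 : n - T1 - Z1 ≤ -1 := by linarith
        have h8 : ((v : ℤ) + 1) * (n - T1 - Z1) ≤ -(v + 1) := by nlinarith
        have h9 : (v : ℤ) * Z1 ≤ v * v := by
          have : Z1 ≤ v := by linarith
          nlinarith
        nlinarith
      · -- general row
        have e2 : Y j = Tc n ρ (μ - 1 - j + 1) - Tc n ρ (μ - 1 - j + 2) := by
          simp only [hY, Ya]
          rw [if_neg (by omega), if_pos (by omega), show μ - j = μ - 1 - j + 1 by omega]
        show _ ≤ Y j - Y (j + 1)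
        rw [e1, e2, hs]
        have hH := H_bound n ρ hσ (s + 1) (by omega)
        have t0 := TZ n ρ (s + 1)
        have t1 := TZ n ρ (s + 1 + 1)
        have t2 := TZ n ρ (s + 1 + 2)
        have z0 := Zc_nonneg n ρ (show 1 ≤ s + 1 by omega)
        have z0' := Zc_le n ρ (show 1 ≤ s + 1 by omega)
        have z1' := Zc_le n ρ (show 1 ≤ s + 1 + 1 by omega)
        have z2 := Zc_nonneg n ρ (show 1 ≤ s + 1 + 2 by omega)
        have g1 := Gc_succ n ρ (s + 1)
        have g2 := Gc_succ n ρ (s + 1 + 1)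
        have hsμ : (s : ℤ) + 2 ≤ μ := by
          have : s + 2 ≤ μ := by omega
          exact_mod_cast this
        rw [show s + 1 + 1 + 1 = s + 1 + 2 by omega] at g2
        push_cast at *
        set Z0 := Zc n ρ (s + 1)
        set Z1 := Zc n ρ (s + 1 + 1)
        set Z2 := Zc n ρ (s + 1 + 2)
        set T0 := Tc n ρ (s + 1)
        set T1 := Tc n ρ (s + 1 + 1)
        set T2 := Tc n ρ (s + 1 + 2)
        set G0 := Gc n ρ (s + 1)
        set G1 := Gc n ρ (s + 1 + 1)
        set G2 := Gc n ρ (s + 1 + 2)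
        set r1 := ρ (s + 1)
        set r2 := ρ (s + 1 + 1)
        have hs0 : (0 : ℤ) ≤ s := by positivity
        -- key identity
        have key : ((s : ℤ) + 1) * (s + 2) * (s + 3) * (T1 - T2 - (T0 - T1)) =
            (((s : ℤ) + 1) * (s + 4) * r1 - (s + 1) * (s + 2) * r2 - n * ((s + 1) * (s + 2)) -
              2 * G0) - 2 * (s + 1) * (s + 3) * Z1 + (s + 1) * (s + 2) * Z2 +
              (s + 2) * (s + 3) * Z0 := by
          have k0 : ((s : ℤ) + 1) * T0 = G0 - Z0 := t0
          have k1 : ((s : ℤ) + 1 + 1) * T1 = G1 - Z1 := t1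
          have k2 : ((s : ℤ) + 1 + 2) * T2 = G2 - Z2 := t2
          have e : ((s : ℤ) + 1) * (s + 2) * (s + 3) * (T1 - T2 - (T0 - T1)) =
            2 * ((s : ℤ) + 1) * (s + 3) * (((s : ℤ) + 1 + 1) * T1) -
              (s + 1) * (s + 2) * (((s : ℤ) + 1 + 2) * T2) -
              (s + 2) * (s + 3) * (((s : ℤ) + 1) * T0) := by ring
          rw [e, k0, k1, k2, g2, g1]
          ring
        have hH2 : (μ : ℤ) * (((s : ℤ) + 1) * (s + 2) * (s + 3)) ≤
            ((s : ℤ) + 1) * (s + 4) * r1 - (s + 1) * (s + 2) * r2 - n * ((s + 1) * (s + 2)) -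
              2 * G0 := by
          have e1 : (μ : ℤ) * (((s : ℤ) + 1) * (s + 2) * (s + 3)) =
            (μ : ℤ) * (((s : ℤ) + 1) * (s + 1 + 1) * (s + 1 + 2)) := by ring
          rw [e1]
          refine le_trans hH (le_of_eq (by ring))
        have p1 : ((s : ℤ) + 2) * (((s : ℤ) + 1) * (s + 2) * (s + 3)) ≤
            (μ : ℤ) * (((s : ℤ) + 1) * (s + 2) * (s + 3)) := by
          apply mul_le_mul_of_nonneg_right hsμ; positivity
        have p2 : 2 * ((s : ℤ) + 1) * (s + 3) * Z1 ≤ 2 * ((s : ℤ) + 1) * (s + 3) * (s + 1) := by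
          apply mul_le_mul_of_nonneg_left _ (by positivity)
          linarith
        have p3 : (0 : ℤ) ≤ ((s : ℤ) + 1) * (s + 2) * Z2 := by positivity
        have p4 : (s : ℤ) * ((s + 2) * (s + 3)) * Z0 ≤ (s : ℤ) * ((s + 2) * (s + 3)) * s := by
          apply mul_le_mul_of_nonneg_left _ (by positivity)
          linarith
        have p5 : ((s : ℤ) + 1) * (s + 2) * (s + 3) * Z0 ≤
            ((s : ℤ) + 1) * (s + 2) * (s + 3) * (T1 - T2 - (T0 - T1)) := by
          rw [key]
          have p6 : 2 * ((s : ℤ) + 1) * (s + 3) * (s + 1) + (s : ℤ) * ((s + 2) * (s + 3)) * s ≤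
              ((s : ℤ) + 2) * (((s : ℤ) + 1) * (s + 2) * (s + 3)) := by
            have : (0 : ℤ) ≤ ((s : ℤ) + 3) * ((s : ℤ) * s + 4 * s + 2) := by positivity
            linarith [this]
          linarith
        exact le_of_mul_le_mul_left p5 (by positivity)
    · have hzj : z j = 0 := by simp only [hz]; rw [if_neg hj1]
      rw [hzj]
      refine ⟨le_rfl, ?_⟩
      have hj2 : j + 1 = μ := by omega
      show _ ≤ Y j - Y (j + 1)
      rw [hj2, hYμ, sub_zero]
      rcases Nat.eq_zero_or_pos j with hj0 | hj0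
      · rw [hj0, hY0]; exact hn
      · have e2 : Y j = Tc n ρ 1 - Tc n ρ 2 := by
          simp only [hY, Ya]
          rw [if_neg (by omega), if_pos (by omega), show μ - j = 1 by omega]
        rw [e2]
        have t1 := TZ n ρ 1
        have t2 := TZ n ρ 2
        have z1 := Zc_le n ρ (show 1 ≤ 1 by omega)
        have z1' := Zc_nonneg n ρ (show 1 ≤ 1 by omega)
        have z2 := Zc_nonneg n ρ (show 1 ≤ 2 by omega)
        have g0 : Gc n ρ 0 = 0 := by simp [Gc]
        have g1 := Gc_succ n ρ 0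
        have g2 := Gc_succ n ρ 1
        rw [g0] at g1
        push_cast at *
        simp only [zero_add] at g1
        linarith
  · simp only [hz]
    rw [if_neg (by omega)]
  · rw [range_eq_Ico]
    have := tele Y 0 μ
    rw [zero_add] at this
    rw [this, hY0, hYμ, sub_zero]
  · intro j hj
    have hsplit : ∑ i ∈ range μ, (Y i - Y (i + 1)) * (if j < i then (j : ℤ) + 1 else
        (μ : ℤ) - j + i) = ∑ i ∈ range (j + 1), (Y i - Y (i + 1)) * (((μ : ℤ) - j) + i) +
          ((j : ℤ) + 1) * ∑ i ∈ Ico (j + 1) (j + 1 + (μ - 1 - j)), (Y i - Y (i + 1)) := by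
      rw [show j + 1 + (μ - 1 - j) = μ by omega, mul_sum, range_eq_Ico, range_eq_Ico,
        ← sum_Ico_consecutive _ (show 0 ≤ j + 1 by omega) (show j + 1 ≤ μ by omega)]
      congr 1
      · apply sum_congr rfl
        intro i hi
        rw [mem_Ico] at hi
        rw [if_neg (by omega)]
      · apply sum_congr rfl
        intro i hi
        rw [mem_Ico] at hi
        rw [if_pos (by omega)]
        ring
    rw [hsplit, abel, tele, show j + 1 + (μ - 1 - j) = μ by omega, hYμ, hY0,
      Ya_sum n ρ hG j hj]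
    have tj := TZ n ρ (μ - j)
    -- value of z (j-1)
    have hzprev : (if j = 0 then 0 else z (j - 1)) = Zc n ρ (μ - j) := by
      rcases Nat.eq_zero_or_pos j with hj0 | hj0
      · subst hj0
        simp [Zc, hG]
      · rw [if_neg (by omega)]
        simp only [hz]
        rw [if_pos (by omega), show μ - 1 - (j - 1) = μ - j by omega]
    rw [hzprev]
    have hGs := Gc_succ n ρ (μ - 1 - j)
    rw [show μ - 1 - j + 1 = μ - j by omega] at hGs
    have hcast : ((μ - j : ℕ) : ℤ) = (μ : ℤ) - j := by omega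
    have hcast2 : ((μ - 1 - j : ℕ) : ℤ) = (μ : ℤ) - 1 - j := by omega
    rw [hcast] at tj
    rw [hcast2] at hGs
    by_cases hj1 : j + 1 < μ
    · have tj1 := TZ n ρ (μ - 1 - j)
      rw [hcast2] at tj1
      have hzj : z j = Zc n ρ (μ - 1 - j) := by simp only [hz]; rw [if_pos hj1]
      have e1 : Y (j + 1) = Tc n ρ (μ - 1 - j) - Tc n ρ (μ - j) := by
        simp only [hY, Ya]
        rw [if_neg (by omega), if_pos hj1, show μ - (j + 1) = μ - 1 - j by omega,
          show μ - 1 - j + 1 = μ - j by omega]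
      rw [hzj, e1]
      linear_combination tj - tj1 + hGs
    · have hzj : z j = 0 := by simp only [hz]; rw [if_neg hj1]
      have hj2 : j + 1 = μ := by omega
      rw [hzj, hj2, hYμ]
      have hg0 : Gc n ρ (μ - 1 - j) = 0 := by
        rw [show μ - 1 - j = 0 by omega]; simp [Gc]
      rw [hg0] at hGs
      have hj3 : (j : ℤ) = μ - 1 := by omega
      rw [hj3] at tj hGs ⊢
      linear_combination tj + hGs

end block

end Pool.Agent.Helper43.Ah
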