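import Mathlib
import Pool.Agent.Lead.ShMain

/-!
Row prices: a degeneration lemma for fat points on a set of monomials arranged in rows.

Row `y` has a price `π y`, the point `c` has a slope `ε c`; the point gives `n c y` conditions to
the row `y`, as if the rows were ordered by `π y - ε c * y`.
-/

set_option autoImplicit false
set_option linter.unusedSectionVars false

namespace Pool.Agent.Helper43.Ah

open Finset Pool.Agent.Lead.Sh

/-- rows of lengths `ℓ y`, `y < R` -/
def rowsD (R : ℕ) (ℓ : ℕ → ℕ) : Finset (ℕ × ℕ) :=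
  (range R).biUnion (fun y => (range (ℓ y)).image (fun k => (k, y)))

lemma mem_rowsD {R : ℕ} {ℓ : ℕ → ℕ} {d : ℕ × ℕ} :
    d ∈ rowsD R ℓ ↔ d.2 < R ∧ d.1 < ℓ d.2 := by
  unfold rowsD
  rw [mem_biUnion]
  constructor
  · rintro ⟨y, hy, hd⟩
    rw [mem_image] at hd
    obtain ⟨k, hk, rfl⟩ := hd
    rw [mem_range] at hy hk
    exact ⟨hy, hk⟩
  · rintro ⟨h1, h2⟩
    exact ⟨d.2, mem_range.2 h1, mem_image.2 ⟨d.1, mem_range.2 h2, rfl⟩⟩

lemma sum_rowsD {M : Type*} [AddCommMonoid M] (R : ℕ) (ℓ : ℕ → ℕ) (f : ℕ × ℕ → M) :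
    ∑ d ∈ rowsD R ℓ, f d = ∑ y ∈ range R, ∑ k ∈ range (ℓ y), f (k, y) := by
  unfold rowsD
  rw [sum_biUnion]
  · apply sum_congr rfl
    intro y _
    rw [sum_image]
    intro a _ b _ hab
    exact (Prod.mk.inj hab).1
  · intro i _ j _ hij
    show Disjoint _ _
    rw [disjoint_left]
    intro d hd hd'
    rw [mem_image] at hd hd'
    obtain ⟨k, _, rfl⟩ := hd
    obtain ⟨k', _, he⟩ := hd'
    exact hij (Prod.mk.inj he).2.symm

lemma card_rowsD (R : ℕ) (ℓ : ℕ → ℕ) : (rowsD R ℓ).card = ∑ y ∈ range R, ℓ y := by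
  rw [card_eq_sum_ones, sum_rowsD]
  apply sum_congr rfl
  intro y _
  simp

/-- Hermite interpolation in one variable -/
lemma hermite (ℓ N : ℕ) (x : ℕ → ℂ) (hx : ∀ i < N, ∀ j < N, x i = x j → i = j) (n : ℕ → ℕ)
    (hn : ℓ ≤ ∑ c ∈ range N, n c) (γ : ℕ → ℂ)
    (h : ∀ c < N, ∀ a < n c, ∑ k ∈ range ℓ, γ k * ((k.choose a : ℂ) * x c ^ (k - a)) = 0) :
    ∀ k < ℓ, γ k = 0 := by
  set g : Polynomial ℂ := ∑ k ∈ range ℓ, Polynomial.C (γ k) * Polynomial.X ^ k with hg
  have hcoeff : ∀ k < ℓ, g.coeff k = γ k := by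
    intro k hk
    rw [hg, Polynomial.finsetSum_coeff, sum_eq_single k]
    · simp
    · intro b _ hb
      rw [Polynomial.coeff_C_mul, Polynomial.coeff_X_pow, if_neg (Ne.symm hb), mul_zero]
    · intro hk'
      exact absurd (mem_range.2 hk) hk'
  have hdvd1 : ∀ c ∈ range N, (Polynomial.X - Polynomial.C (x c)) ^ n c ∣ g := by
    intro c hc
    rw [mem_range] at hc
    rw [Polynomial.X_sub_C_pow_dvd_iff, Polynomial.X_pow_dvd_iff]
    intro a ha
    have : (g.comp (Polynomial.X + Polynomial.C (x c))).coeff a =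
        ∑ k ∈ range ℓ, γ k * ((k.choose a : ℂ) * x c ^ (k - a)) := by
      rw [hg, Polynomial.sum_comp, Polynomial.finsetSum_coeff]
      apply sum_congr rfl
      intro k _
      rw [Polynomial.mul_comp, Polynomial.C_comp, Polynomial.X_pow_comp, Polynomial.coeff_C_mul,
        Polynomial.coeff_X_add_C_pow]
      ring
    rw [this]
    exact h c hc a ha
  have hdvd : ∏ c ∈ range N, (Polynomial.X - Polynomial.C (x c)) ^ n c ∣ g := by
    apply Finset.prod_dvd_of_coprime _ hdvd1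
    intro i hi j hj hij
    apply IsCoprime.pow
    apply Polynomial.isCoprime_X_sub_C_of_isUnit_sub
    rw [isUnit_iff_ne_zero, sub_ne_zero]
    intro he
    exact hij (hx i (mem_range.1 hi) j (mem_range.1 hj) he)
  have hg0 : g = 0 := by
    by_contra hne
    have h1 := Polynomial.natDegree_le_of_dvd hdvd hne
    rw [Polynomial.natDegree_prod_of_monic _ _ (fun c _ => (Polynomial.monic_X_sub_C _).pow _)] at h1
    simp only [Polynomial.natDegree_pow, Polynomial.natDegree_X_sub_C, mul_one] at h1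
    have h2 : g.degree < ℓ := by
      rw [Polynomial.degree_lt_iff_coeff_zero]
      intro k hk
      rw [hg, Polynomial.finsetSum_coeff]
      apply sum_eq_zero
      intro b hb
      rw [mem_range] at hb
      rw [Polynomial.coeff_C_mul, Polynomial.coeff_X_pow, if_neg (by omega), mul_zero]
    have h3 := (Polynomial.natDegree_lt_iff_degree_lt hne).2 h2
    omega
  intro k hk
  rw [← hcoeff k hk, hg0, Polynomial.coeff_zero]

/-- conditions against all products `x`-order `a`, polynomial in the second exponent -/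
lemma kill_row (D : Finset (ℕ × ℕ)) (c' : ℕ × ℕ → ℂ) (ν : ℕ) (x y : ℂ)
    (hc : ∀ o : ℕ × ℕ, o.1 + o.2 < ν → ∑ d ∈ D, c' d * E o d x y = 0) (a : ℕ) (q : Polynomial ℂ)
    (hq : a + q.natDegree < ν) :
    ∑ d ∈ D, c' d * ((d.1.choose a : ℂ) * x ^ (d.1 - a) * y ^ d.2 * q.eval (d.2 : ℂ)) = 0 := by
  obtain ⟨γ, hγ⟩ := newton q
  have h1 : ∀ d ∈ D, c' d * ((d.1.choose a : ℂ) * x ^ (d.1 - a) * y ^ d.2 * q.eval (d.2 : ℂ)) =
      ∑ b ∈ range (q.natDegree + 1), γ b * y ^ b * (c' d * E (a, b) d x y) := by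
    intro d _
    rw [hγ, mul_sum, mul_sum]
    apply sum_congr rfl
    intro b _
    unfold E
    simp only
    rcases lt_or_ge d.2 b with hb | hb
    · rw [Nat.choose_eq_zero_of_lt hb]; simp
    · have : y ^ d.2 = y ^ b * y ^ (d.2 - b) := by rw [← pow_add, Nat.add_sub_cancel' hb]
      rw [this]; ring
  rw [sum_congr rfl h1, sum_comm]
  apply sum_eq_zero
  intro b hb
  rw [mem_range] at hb
  rw [← mul_sum, hc (a, b) (by simp only; omega), mul_zero]

/-- **Row prices.** -/
theorem row_inj (R : ℕ) (ℓ : ℕ → ℕ) (N : ℕ) (ν : ℕ → ℕ) (n : ℕ → ℕ → ℕ) (π ε : ℕ → ℤ)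
    (hU : ∀ c < N, ∀ y < R, 0 < n c y → ∃ U : Finset ℕ, y ∉ U ∧ U.card + n c y ≤ ν c ∧
      ∀ y' < R, y' ∉ U → y' ≠ y → π y' - ε c * y' < π y - ε c * y)
    (hℓ : ∀ y < R, ℓ y ≤ ∑ c ∈ range N, n c y) :
    Inj (rowsD R ℓ) (rows ν (range N)) := by
  classical
  -- choose the sets of better rows
  have hU' : ∀ c y, ∃ U : Finset ℕ, c < N → y < R → 0 < n c y → y ∉ U ∧ U.card + n c y ≤ ν c ∧
      ∀ y' < R, y' ∉ U → y' ≠ y → π y' - ε c * y' < π y - ε c * y := by
    intro c y
    by_cases h : c < N ∧ y < R ∧ 0 < n c y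
    · obtain ⟨U, hU1⟩ := hU c h.1 y h.2.1 h.2.2
      exact ⟨U, fun _ _ _ => hU1⟩
    · exact ⟨∅, fun h1 h2 h3 => absurd ⟨h1, h2, h3⟩ h⟩
  choose U hU1 using hU'
  -- the index set of the conditions used
  set I : Finset (ℕ × ℕ × ℕ) := (range N).biUnion (fun c => (range R).biUnion (fun y =>
    (range (n c y)).image (fun a => (c, y, a)))) with hI
  have hmemI : ∀ c y a, (c, y, a) ∈ I ↔ c < N ∧ y < R ∧ a < n c y := by
    intro c y a
    rw [hI, mem_biUnion]
    constructor
    · rintro ⟨c', hc', h⟩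
      rw [mem_biUnion] at h
      obtain ⟨y', hy', h⟩ := h
      rw [mem_image] at h
      obtain ⟨a', ha', he⟩ := h
      rw [mem_range] at hc' hy' ha'
      simp only [Prod.mk.injEq] at he
      obtain ⟨rfl, rfl, rfl⟩ := he
      exact ⟨hc', hy', ha'⟩
    · rintro ⟨h1, h2, h3⟩
      refine ⟨c, mem_range.2 h1, mem_biUnion.2 ⟨y, mem_range.2 h2, mem_image.2
        ⟨a, mem_range.2 h3, rfl⟩⟩⟩
  set V : ℕ → ℕ → ℤ := fun c y => π y - ε c * y with hV
  set q : ℕ → ℕ → Polynomial ℂ := fun c y => ∏ y' ∈ U c y,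
    (Polynomial.X - Polynomial.C (y' : ℂ)) with hq
  have hqdeg : ∀ c y, (q c y).natDegree = (U c y).card := by
    intro c y
    rw [hq]
    simp only
    rw [Polynomial.natDegree_prod_of_monic _ _ (fun i _ => Polynomial.monic_X_sub_C _)]
    simp only [Polynomial.natDegree_X_sub_C, sum_const, smul_eq_mul, mul_one]
  have hqeval : ∀ c y (t : ℕ), (q c y).eval (t : ℂ) = 0 ↔ t ∈ U c y := by
    intro c y t
    rw [hq]
    simp only
    rw [Polynomial.eval_prod, prod_eq_zero_iff]
    constructor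
    · rintro ⟨y', hy', h⟩
      rw [Polynomial.eval_sub, Polynomial.eval_X, Polynomial.eval_C, sub_eq_zero] at h
      have : t = y' := by exact_mod_cast h
      rwa [this]
    · intro h
      exact ⟨t, h, by simp⟩
  set xx : ℕ → ℂ := fun c => (c : ℂ) with hxx
  set cf : ℕ × ℕ × ℕ → ℕ × ℕ → ℂ := fun i d =>
    (d.1.choose i.2.2 : ℂ) * xx i.1 ^ (d.1 - i.2.2) * (q i.1 i.2.1).eval (d.2 : ℂ) with hcf
  obtain ⟨e, he, hinj⟩ := poly_inj (fun (i : ↥I) (d : ↥(rowsD R ℓ)) =>
    (Polynomial.X ^ (V (i : ℕ × ℕ × ℕ).1 (i : ℕ × ℕ × ℕ).2.1 -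
      V (i : ℕ × ℕ × ℕ).1 (d : ℕ × ℕ).2).toNat * Polynomial.C (cf i d) : Polynomial ℂ)) (by
    intro γ hγ
    set γ2 : ℕ × ℕ → ℂ := fun d => if h : d ∈ rowsD R ℓ then γ ⟨d, h⟩ else 0 with hγ2
    have hγ2' : ∀ d : ↥(rowsD R ℓ), γ2 d = γ d := by
      intro d; simp only [hγ2]; rw [dif_pos d.2]
    have key : ∀ y < R, ∀ k < ℓ y, γ2 (k, y) = 0 := by
      intro y hy
      apply hermite (ℓ y) N xx (by
        intro i _ j _ hij
        simpa [hxx] using hij) (fun c => n c y) (hℓ y hy) (fun k => γ2 (k, y))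
      intro c hc a ha
      have h1 := hγ ⟨(c, y, a), (hmemI c y a).2 ⟨hc, hy, ha⟩⟩
      obtain ⟨u1, u2, u3⟩ := hU1 c y hc hy (by omega)
      have h2 : ∑ d ∈ rowsD R ℓ, γ2 d * (Polynomial.eval 0 (Polynomial.X ^ (V c y -
          V c d.2).toNat * Polynomial.C (cf (c, y, a) d))) = 0 := by
        rw [← sum_coe_sort (rowsD R ℓ)]
        refine Eq.trans ?_ h1
        apply sum_congr rfl
        intro d _
        rw [hγ2']
      rw [sum_rowsD, sum_eq_single y] at h2
      · have h3 : ∑ k ∈ range (ℓ y), γ2 (k, y) * ((k.choose a : ℂ) * xx c ^ (k - a)) *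
            (q c y).eval (y : ℂ) = 0 := by
          refine Eq.trans ?_ h2
          apply sum_congr rfl
          intro k _
          rw [sub_self, Int.toNat_zero, pow_zero, one_mul, Polynomial.eval_C, hcf]
          simp only
          ring
        rw [← sum_mul] at h3
        rcases mul_eq_zero.1 h3 with h4 | h4
        · exact h4
        · exact absurd ((hqeval c y y).1 h4) u1
      · intro y' hy' hne
        rw [mem_range] at hy'
        apply sum_eq_zero
        intro k _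
        rw [Polynomial.eval_mul, Polynomial.eval_C, Polynomial.eval_pow, Polynomial.eval_X]
        by_cases hu : y' ∈ U c y
        · have : cf (c, y, a) (k, y') = 0 := by
            rw [hcf]
            simp only
            rw [(hqeval c y y').2 hu, mul_zero]
          rw [this, mul_zero, mul_zero]
        · have h5 := u3 y' hy' hu hne
          have : (V c y - V c y').toNat ≠ 0 := by
            simp only [hV]
            omega
          simp only
          rw [zero_pow this, zero_mul, mul_zero]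
      · intro hn
        exact absurd (mem_range.2 hy) hn
    funext d
    rw [← hγ2', Pi.zero_apply]
    have hd := mem_rowsD.1 d.2
    exact key _ hd.1 _ hd.2)
  refine ⟨fun c => (xx c, e ^ (ε c)), ?_⟩
  intro c' hc' d hd
  have hkey := hinj (fun d => c' d * e ^ (π (d : ℕ × ℕ).2)) (by
    rintro ⟨⟨c, y, a⟩, hi⟩
    obtain ⟨hc, hy, ha⟩ := (hmemI c y a).1 hi
    obtain ⟨u1, u2, u3⟩ := hU1 c y hc hy (by omega)
    have h1 := kill_row (rowsD R ℓ) c' (ν c) (xx c) (e ^ (ε c)) (by
      intro o ho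
      exact hc' (c, o) (by rw [mem_rows, mem_range]; exact ⟨hc, ho⟩)) a (q c y) (by
      rw [hqdeg]; omega)
    have h2 : e ^ (V c y) * ∑ d ∈ rowsD R ℓ, c' d * ((d.1.choose a : ℂ) * xx c ^ (d.1 - a) *
        (e ^ (ε c)) ^ d.2 * (q c y).eval (d.2 : ℂ)) = 0 := by rw [h1, mul_zero]
    rw [mul_sum] at h2
    simp only
    rw [sum_coe_sort (rowsD R ℓ) (fun d => c' d * e ^ (π d.2) * Polynomial.eval e
      (Polynomial.X ^ (V c y - V c d.2).toNat * Polynomial.C (cf (c, y, a) d)))]
    refine Eq.trans ?_ h2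
    apply sum_congr rfl
    intro d hd
    rw [mem_rowsD] at hd
    rw [Polynomial.eval_mul, Polynomial.eval_C, Polynomial.eval_pow, Polynomial.eval_X]
    by_cases hu : d.2 ∈ U c y
    · have h0 := (hqeval c y d.2).2 hu
      have : cf (c, y, a) d = 0 := by
        rw [hcf]
        simp only
        rw [h0, mul_zero]
      rw [this, h0]
      simp
    · have hnn : V c d.2 ≤ V c y := by
        by_cases hne : d.2 = y
        · rw [hne]
        · exact (u3 d.2 hd.1 hu hne).le
      have hpow : e ^ (π d.2) * e ^ (V c y - V c d.2).toNat = e ^ (V c y) * (e ^ (ε c)) ^ d.2 := by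
        rw [← zpow_natCast, Int.toNat_of_nonneg (by omega), ← zpow_add₀ he, ← zpow_natCast,
          ← zpow_mul, ← zpow_add₀ he]
        congr 1
        simp only [hV]
        ring
      have : cf (c, y, a) d = (d.1.choose a : ℂ) * xx c ^ (d.1 - a) *
          (q c y).eval (d.2 : ℂ) := rfl
      rw [this]
      linear_combination (c' d * ((d.1.choose a : ℂ) * xx c ^ (d.1 - a) *
          (q c y).eval (d.2 : ℂ))) * hpow)
  have h1 := congrFun hkey ⟨d, hd⟩
  simp only [Pi.zero_apply] at h1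
  rcases mul_eq_zero.1 h1 with h2 | h2
  · exact h2
  · exact absurd h2 (zpow_ne_zero _ he)

end Pool.Agent.Helper43.Ah
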