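import Mathlib
import Pool.Agent.Helper43.Ah.Row

/-!
The patterns: a point of multiplicity `ν`, stage `i` and drop `z`, and prices realizing them.
-/

set_option autoImplicit false
set_option linter.unusedSectionVars false

namespace Pool.Agent.Helper43.Ah

open Finset Pool.Agent.Lead.Sh

/-- number of conditions in the row `j` of a point of multiplicity `ν`, stage `i`, drop `z` -/
def pat (R ν i z j : ℕ) : ℕ :=
  if j < i then ν + 1 + j - R else if j = i then ν - z else
    if j ≤ i + z then ν + 1 - (j - i) else ν - (j - i)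

section prices

variable (R : ℕ)

/-- the increments of the prices -/
def pr (j : ℕ) : ℤ := ((4 * (R + 1) : ℕ) : ℤ) ^ (R - j)

/-- the prices -/
def Pi' (j : ℕ) : ℤ := ∑ t ∈ range j, pr R t

/-- the slopes -/
def sl (i z : ℕ) : ℤ := if z = 0 then pr R i + 1 else (pr R i - 1) / z

/-- the value of the row `j` -/
def vv (i z j : ℕ) : ℤ := Pi' R j - sl R i z * j

variable {R}

lemma pr_pos (j : ℕ) : 0 < pr R j := by unfold pr; positivity

lemma pr_succ {j : ℕ} (hj : j < R) : pr R j = ((4 * (R + 1) : ℕ) : ℤ) * pr R (j + 1) := by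
  unfold pr
  rw [← pow_succ', show R - j = R - (j + 1) + 1 by omega]

lemma pr_anti {j j' : ℕ} (h : j ≤ j') : pr R j' ≤ pr R j := by
  unfold pr
  apply pow_le_pow_right₀
  · push_cast; omega
  · omega

lemma pr_ge {j : ℕ} (hj : j < R) : ((4 * (R + 1) : ℕ) : ℤ) ≤ pr R j := by
  rw [pr_succ hj]
  have := pr_pos (R := R) (j + 1)
  nlinarith [show (0:ℤ) ≤ ((4 * (R + 1) : ℕ) : ℤ) by positivity]

lemma Pi_sub {j j' : ℕ} (h : j ≤ j') : Pi' R j' - Pi' R j = ∑ t ∈ Ico j j', pr R t := by
  unfold Pi'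
  rw [sum_Ico_eq_sub _ h]

lemma Pi_sub_le {j j' : ℕ} (h : j ≤ j') : Pi' R j' - Pi' R j ≤ ((j' : ℤ) - j) * pr R j := by
  rw [Pi_sub h]
  calc ∑ t ∈ Ico j j', pr R t ≤ ∑ t ∈ Ico j j', pr R j :=
        sum_le_sum (fun t ht => pr_anti (mem_Ico.1 ht).1)
    _ = ((j' : ℤ) - j) * pr R j := by
        rw [sum_const, Nat.card_Ico, nsmul_eq_mul, Nat.cast_sub h]

lemma Pi_sub_ge {j j' : ℕ} (h : j < j') : pr R j ≤ Pi' R j' - Pi' R j := by
  rw [Pi_sub h.le]
  exact single_le_sum (f := fun t => pr R t) (fun t _ => (pr_pos t).le) (mem_Ico.2 ⟨le_rfl, h⟩)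

lemma Pi_sub_two {j j' : ℕ} (h : j ≤ j') (h' : j' ≤ R) : Pi' R j' - Pi' R j ≤ 2 * pr R j := by
  obtain ⟨n, rfl⟩ := Nat.exists_eq_add_of_le h
  induction n generalizing j with
  | zero => simp; exact (pr_pos _).le
  | succ n ih =>
    have h1 := ih (j := j + 1) (by omega) (by omega)
    have h2 : Pi' R (j + 1) - Pi' R j = pr R j := by
      unfold Pi'; rw [sum_range_succ]; ring
    have h3 : 2 * pr R (j + 1) ≤ pr R j := by
      rw [pr_succ (by omega : j < R)]
      have := pr_pos (R := R) (j + 1)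
      have h4 : (2 : ℤ) ≤ ((4 * (R + 1) : ℕ) : ℤ) := by push_cast; omega
      nlinarith
    rw [show j + (n + 1) = j + 1 + n by omega]
    linarith

lemma sl_f1 {i z : ℕ} (hz : 1 ≤ z) : sl R i z * z ≤ pr R i - 1 := by
  unfold sl
  rw [if_neg (by omega)]
  exact Int.ediv_mul_le _ (by positivity)

lemma sl_f2 {i z : ℕ} (hz : 1 ≤ z) : pr R i - z ≤ sl R i z * z := by
  unfold sl
  rw [if_neg (by omega)]
  have := Int.lt_ediv_add_one_mul_self (pr R i - 1) (show (0 : ℤ) < (z : ℤ) by positivity)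
  linarith

lemma sl_f3 {i z : ℕ} (hz : 1 ≤ z) (hi : i + z < R) : 3 * pr R (i + 1) ≤ sl R i z := by
  have h1 := sl_f2 (R := R) (i := i) hz
  rw [pr_succ (by omega : i < R)] at h1
  have h2 := pr_ge (R := R) (j := i + 1) (by omega)
  by_contra hcon
  push Not at hcon
  have hzR : (z : ℤ) ≤ R := by exact_mod_cast (by omega : z ≤ R)
  have hz0 : (0 : ℤ) < z := by exact_mod_cast hz
  have h3 : sl R i z * z ≤ 3 * pr R (i + 1) * z := by nlinarith
  have h4 : 3 * pr R (i + 1) * z ≤ 3 * pr R (i + 1) * R := by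
    have := pr_pos (R := R) (i + 1)
    nlinarith
  push_cast at h1 h2
  nlinarith [pr_pos (R := R) (i + 1)]

lemma sl_gt {i z j : ℕ} (hi : i + z < R) (hj : i < j) : pr R j < sl R i z := by
  rcases Nat.eq_zero_or_pos z with h0 | h0
  · unfold sl
    rw [if_pos h0]
    have := pr_anti (R := R) hj.le
    linarith
  · have h1 := sl_f3 (R := R) (i := i) h0 hi
    have h2 := pr_anti (R := R) (show i + 1 ≤ j by omega)
    have := pr_pos (R := R) (i + 1)
    linarith

lemma sl_le {i z : ℕ} : sl R i z ≤ pr R i + 1 := by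
  rcases Nat.eq_zero_or_pos z with h0 | h0
  · unfold sl; rw [if_pos h0]
  · have h1 := sl_f1 (R := R) (i := i) h0
    have hz0 : (1 : ℤ) ≤ z := by exact_mod_cast h0
    by_contra hcon
    push Not at hcon
    have := pr_pos (R := R) i
    nlinarith

lemma sl_nonneg {i z : ℕ} (hi : i + z < R) : 0 ≤ sl R i z := by
  have := sl_gt (R := R) (j := i + 1) hi (by omega)
  have := pr_pos (R := R) (i + 1)
  linarith

lemma sl_small {i z j : ℕ} (hi : i + z < R) (hj : j < i) : sl R i z * R < pr R j := by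
  have h1 := sl_le (R := R) (i := i) (z := z)
  have h2 : pr R i * (4 * (R + 1)) ≤ pr R j := by
    have h3 := pr_succ (R := R) (j := i - 1) (by omega)
    rw [show i - 1 + 1 = i by omega] at h3
    have h4 := pr_anti (R := R) (show j ≤ i - 1 by omega)
    push_cast at h3
    linarith
  have h5 := pr_pos (R := R) i
  have h6 : (0 : ℤ) ≤ R := by positivity
  nlinarith

/-- a row after the stage is worth less than the earlier ones -/
lemma vv_A {i z j j' : ℕ} (hi : i + z < R) (h1 : i < j) (h2 : j < j') :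
    vv R i z j' < vv R i z j := by
  unfold vv
  have h3 := Pi_sub_le (R := R) h2.le
  have h4 := sl_gt (R := R) hi h1
  have h5 : (0 : ℤ) < (j' : ℤ) - j := by
    have : (j : ℤ) < j' := by exact_mod_cast h2
    linarith
  nlinarith

lemma vv_A0 {i j' : ℕ} (h2 : i < j') : vv R i 0 j' < vv R i 0 i := by
  unfold vv
  have h3 := Pi_sub_le (R := R) h2.le
  have h5 : (0 : ℤ) < (j' : ℤ) - i := by
    have : (i : ℤ) < j' := by exact_mod_cast h2
    linarith
  have h6 : sl R i 0 = pr R i + 1 := by unfold sl; simp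
  rw [h6]
  nlinarith

lemma vv_B {i z j : ℕ} (h1 : i < j) (h2 : j ≤ i + z) (hi : i + z < R) :
    vv R i z i < vv R i z j := by
  unfold vv
  have h3 := Pi_sub_ge (R := R) h1
  have h4 := sl_f1 (R := R) (i := i) (show 1 ≤ z by omega)
  have h5 := sl_nonneg (R := R) hi
  have h6 : (j : ℤ) - i ≤ z := by
    have : (j : ℤ) ≤ ((i + z : ℕ) : ℤ) := by exact_mod_cast h2
    push_cast at this
    linarith
  nlinarith

lemma vv_C {i z j : ℕ} (h1 : i + z < j) (hj : j < R) : vv R i z j < vv R i z i := by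
  rcases Nat.eq_zero_or_pos z with h0 | h0
  · subst h0
    exact vv_A0 (by omega)
  unfold vv
  have hi : i + z < R := by omega
  have h2 := Pi_sub_two (R := R) (show i + 1 ≤ j by omega) hj.le
  have h3 : Pi' R (i + 1) - Pi' R i = pr R i := by
    unfold Pi'; rw [sum_range_succ]; ring
  have h4 := sl_f2 (R := R) (i := i) h0
  have h5 := sl_f3 (R := R) h0 hi
  have h6 := pr_ge (R := R) (j := i + 1) (by omega)
  have h7 : (z : ℤ) + 1 ≤ (j : ℤ) - i := by
    have : ((i + z : ℕ) : ℤ) < (j : ℤ) := by exact_mod_cast h1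
    push_cast at this
    linarith
  have h8 : (z : ℤ) < R := by exact_mod_cast (by omega : z < R)
  have h9 := sl_nonneg (R := R) hi
  push_cast at h6
  nlinarith

lemma vv_D {i z j j' : ℕ} (hi : i + z < R) (h1 : j' < i) (h2 : j' < j) (hj : j < R) :
    vv R i z j' < vv R i z j := by
  unfold vv
  have h3 := Pi_sub_ge (R := R) h2
  have h4 := sl_small (R := R) hi h1
  have h5 := sl_nonneg (R := R) hi
  have h6 : (j : ℤ) - j' ≤ R := by
    have : (j : ℤ) < R := by exact_mod_cast hj
    have : (0 : ℤ) ≤ j' := by positivity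
    linarith
  nlinarith

theorem exU {ν i z j : ℕ} (hi : i + z < R) (hz : z ≤ ν) (hj : j < R) (hp : 0 < pat R ν i z j) :
    ∃ U : Finset ℕ, (∀ u ∈ U, u < R) ∧ j ∉ U ∧ U.card + pat R ν i z j ≤ ν ∧
      ∀ j' < R, j' ∉ U → j' ≠ j → vv R i z j' < vv R i z j := by
  unfold pat at hp ⊢
  by_cases c1 : j < i
  · rw [if_pos c1] at hp ⊢
    refine ⟨Ioo j R, ?_, ?_, ?_, ?_⟩
    · intro u hu; exact (mem_Ioo.1 hu).2
    · rw [mem_Ioo]; omega
    · rw [Nat.card_Ioo]; omega
    · intro j' hj' hU hne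
      rw [mem_Ioo] at hU
      exact vv_D hi (by omega) (by omega) hj
  rw [if_neg c1] at hp ⊢
  by_cases c2 : j = i
  · subst c2
    rw [if_pos rfl] at hp ⊢
    refine ⟨Ioc j (j + z), ?_, ?_, ?_, ?_⟩
    · intro u hu; rw [mem_Ioc] at hu; omega
    · rw [mem_Ioc]; omega
    · rw [Nat.card_Ioc]; omega
    · intro j' hj' hU hne
      rw [mem_Ioc] at hU
      rcases Nat.lt_or_ge j' j with h | h
      · exact vv_D hi h h hj
      · exact vv_C (by omega) hj'
  rw [if_neg c2] at hp ⊢
  by_cases c3 : j ≤ i + z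
  · rw [if_pos c3] at hp ⊢
    refine ⟨Ioo i j, ?_, ?_, ?_, ?_⟩
    · intro u hu; rw [mem_Ioo] at hu; omega
    · rw [mem_Ioo]; omega
    · rw [Nat.card_Ioo]; omega
    · intro j' hj' hU hne
      rw [mem_Ioo] at hU
      rcases Nat.lt_trichotomy j' i with h | h | h
      · exact vv_D hi h (by omega) hj
      · subst h; exact vv_B (by omega) c3 hi
      · exact vv_A hi (by omega) (by omega)
  rw [if_neg c3] at hp ⊢
  refine ⟨Ico i j, ?_, ?_, ?_, ?_⟩
  · intro u hu; rw [mem_Ico] at hu; omega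
  · rw [mem_Ico]; omega
  · rw [Nat.card_Ico]; omega
  · intro j' hj' hU hne
    rw [mem_Ico] at hU
    rcases Nat.lt_or_ge j' i with h | h
    · exact vv_D hi h (by omega) hj
    · exact vv_A hi (by omega) (by omega)

end prices

/-- **Filling rows with patterns.** -/
theorem fill_inj (R N : ℕ) (ν st zc b : ℕ → ℕ) (hst : ∀ c < N, st c + zc c < R)
    (hz : ∀ c < N, zc c ≤ ν c)
    (hb : ∀ j < R, b j ≤ ∑ c ∈ range N, pat R (ν c) (st c) (zc c) j) :
    Inj (rowsD R (fun y => b (R - 1 - y))) (rows ν (range N)) := by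
  apply row_inj R _ N ν (fun c y => pat R (ν c) (st c) (zc c) (R - 1 - y))
    (fun y => Pi' R (R - 1 - y)) (fun c => - sl R (st c) (zc c))
  · intro c hc y hy hp
    obtain ⟨U, hU1, hU2, hU3, hU4⟩ := exU (hst c hc) (hz c hc) (show R - 1 - y < R by omega) hp
    have hcast : ∀ y < R, ((R - 1 - y : ℕ) : ℤ) = (R : ℤ) - 1 - y := by
      intro y hy
      omega
    refine ⟨U.image (fun u => R - 1 - u), ?_, ?_, ?_⟩
    · intro h
      rw [mem_image] at h
      obtain ⟨u, hu, he⟩ := h
      have := hU1 u hu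
      apply hU2
      rw [show R - 1 - y = u by omega]
      exact hu
    · exact le_trans (Nat.add_le_add_right card_image_le _) hU3
    · intro y' hy' hy'U hne
      have h1 := hU4 (R - 1 - y') (by omega) (by
        intro h
        apply hy'U
        rw [mem_image]
        exact ⟨_, h, by omega⟩) (by omega)
      unfold vv at h1
      rw [hcast y hy, hcast y' hy'] at h1
      linarith
  · intro y hy
    exact hb (R - 1 - y) (by omega)

end Pool.Agent.Helper43.Ah
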