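import Mathlib
import Pool.Agent.Helper43.Ah.Proc

/-!
The core theorem: rows of lengths `b j` are filled exactly.
-/

set_option autoImplicit false
set_option linter.unusedSectionVars false

namespace Pool.Agent.Helper43.Ah

open Finset Pool.Agent.Lead.Sh

lemma ch2_pos {v : ℕ} (h : 1 ≤ v) : 1 ≤ (v + 1).choose 2 := by
  apply Nat.choose_pos; omega

lemma two_ch2 (v : ℕ) : 2 * (v + 1).choose 2 = v * (v + 1) := by
  rw [Nat.choose_two_right, Nat.add_sub_cancel, mul_comm (v + 1) v]
  exact Nat.mul_div_cancel' (Nat.even_mul_succ_self v).two_dvd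

section run

variable {m R : ℕ} {ν b : ℕ → ℕ} {J T : ℕ} {st zc : ℕ → ℕ}

lemma St.total (h : St m R ν b J T st zc) :
    ∑ j ∈ range R, ∑ c ∈ range T, pat R (ν c) (st c) (zc c) j =
      ∑ c ∈ range T, (ν c + 1).choose 2 := by
  rw [sum_comm]
  apply sum_congr rfl
  intro c hc
  rw [mem_range] at hc
  exact pat_sum (h.zc_lt c hc) (h.fits c hc)

lemma sum_ch2_lt {ν : ℕ → ℕ} (hν1 : ∀ c, 1 ≤ ν c) {a b : ℕ} (h : a < b) :
    ∑ c ∈ range a, (ν c + 1).choose 2 < ∑ c ∈ range b, (ν c + 1).choose 2 := by
  obtain ⟨k, rfl⟩ : ∃ k, b = a + 1 + k := ⟨b - (a + 1), by omega⟩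
  calc ∑ c ∈ range a, (ν c + 1).choose 2 < ∑ c ∈ range (a + 1), (ν c + 1).choose 2 := by
        rw [sum_range_succ]
        have := ch2_pos (hν1 a)
        omega
    _ ≤ _ := by
        apply sum_le_sum_of_subset
        intro x hx
        rw [mem_range] at hx ⊢
        omega

lemma St.pure (h : St m R ν b J T st zc) (hν1 : ∀ c, 1 ≤ ν c) {N0 : ℕ} (hJ : R - 2 * m ≤ J)
    (hJR : J ≤ R) (hoth : ∑ c ∈ range N0, (ν c + 1).choose 2 ≤ ∑ j ∈ range (R - 2 * m), b j) :
    N0 ≤ T := by
  by_contra hcon
  push Not at hcon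
  have h1 := sum_ch2_lt hν1 hcon
  have h2 := h.total
  have h3 : ∑ j ∈ range (R - 2 * m), b j ≤ ∑ j ∈ range R, ∑ c ∈ range T,
      pat R (ν c) (st c) (zc c) j := by
    calc ∑ j ∈ range (R - 2 * m), b j = ∑ j ∈ range (R - 2 * m), ∑ c ∈ range T,
          pat R (ν c) (st c) (zc c) j := by
            apply sum_congr rfl
            intro j hj
            rw [mem_range] at hj
            rw [h.done j (by omega)]
      _ ≤ _ := by
          apply sum_le_sum_of_subset
          intro x hx
          rw [mem_range] at hx ⊢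
          omega
  omega

theorem run (m μ R N0 : ℕ) (ν b : ℕ → ℕ) (hm : 1 ≤ m) (hν1 : ∀ c, 1 ≤ ν c) (hνm : ∀ c, ν c ≤ m)
    (hpure : ∀ c, N0 ≤ c → ν c = μ) (hb : ∀ j < R, 2 * m * m ≤ b j)
    (hb1 : ∀ j, j + 1 < R → b j ≤ b (j + 1) + 1)
    (hoth : ∑ c ∈ range N0, (ν c + 1).choose 2 ≤ ∑ j ∈ range (R - 2 * m), b j) :
    ∀ J ≤ R - μ, ∃ T st zc, (∀ c < T, R - 2 * m ≤ st c → N0 ≤ c) ∧ St m R ν b J T st zc := by
  intro J
  induction J with
  | zero => intro _; exact ⟨0, fun _ => 0, fun _ => 0, by intro c hc; omega, St.zero _ _ _ _ _ _⟩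
  | succ J ih =>
    intro hJ
    obtain ⟨T, st, zc, hp, h⟩ := ih (by omega)
    have hpT : R - 2 * m ≤ J → N0 ≤ T := fun hJ2 => h.pure hν1 hJ2 (by omega) hoth
    have hfit : ∀ c, T ≤ c → J + ν c < R := by
      intro c hc
      by_cases hJ2 : R - 2 * m ≤ J
      · rw [hpure c (le_trans (hpT hJ2) hc)]; omega
      · have := hνm c; omega
    obtain ⟨T', st', zc', hTT, e1, e2, h'⟩ := h.step hm hν1 hνm hfit (hb J (by omega)) (by
      intro j hj
      subst hj
      exact hb1 j (by omega))
    refine ⟨T', st', zc', ?_, h'⟩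
    intro c hc hs
    by_cases hcT : c < T
    · rw [e1 c hcT] at hs
      exact hp c hcT hs
    · rw [e2 c (by omega)] at hs
      have := hpT hs
      omega

end run

/-- distributing the points of the block -/
lemma dist (J0 T : ℕ) (X z : ℕ → ℕ) (k : ℕ) (hz : ∀ i < k, z i ≤ X i) :
    ∃ s w : ℕ → ℕ, (∀ c, T ≤ c → c < T + ∑ i ∈ range k, X i → ∃ i < k, s c = J0 + i ∧
      (w c = 0 ∨ (w c = 1 ∧ 0 < z i))) ∧
      ∀ F : ℕ → ℕ → ℕ, ∑ c ∈ Ico T (T + ∑ i ∈ range k, X i), F (s c) (w c) =
        ∑ i ∈ range k, (z i * F (J0 + i) 1 + (X i - z i) * F (J0 + i) 0) := by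
  induction k with
  | zero =>
    refine ⟨fun _ => 0, fun _ => 0, ?_, ?_⟩
    · intro c h1 h2; simp at h2; omega
    · intro F; simp
  | succ k ih =>
    obtain ⟨s, w, h1, h2⟩ := ih (fun i hi => hz i (by omega))
    have hzk := hz k (by omega)
    set A := T + ∑ i ∈ range k, X i with hA
    refine ⟨fun c => if c < A then s c else J0 + k, fun c => if c < A then w c else
      if c < A + z k then 1 else 0, ?_, ?_⟩
    · intro c hc1 hc2
      by_cases hcA : c < A
      · obtain ⟨i, hi, hs, hw⟩ := h1 c hc1 hcA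
        refine ⟨i, by omega, ?_⟩
        simp only [if_pos hcA]
        exact ⟨hs, hw⟩
      · refine ⟨k, by omega, ?_⟩
        simp only [if_neg hcA]
        refine ⟨trivial, ?_⟩
        by_cases h3 : c < A + z k
        · right; rw [if_pos h3]; exact ⟨rfl, by omega⟩
        · left; rw [if_neg h3]
    · intro F
      rw [sum_range_succ (fun i => X i), ← add_assoc, ← hA, sum_range_succ (fun i => _ + _), ← h2 F]
      rw [← sum_Ico_consecutive _ (show T ≤ A by omega) (show A ≤ A + X k by omega)]
      congr 1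
      · apply sum_congr rfl
        intro c hc
        rw [mem_Ico] at hc
        simp only [if_pos hc.2]
      · rw [← sum_Ico_consecutive _ (show A ≤ A + z k by omega) (show A + z k ≤ A + X k by omega)]
        congr 1
        · rw [sum_congr rfl (g := fun _ => F (J0 + k) 1)]
          · rw [sum_const, Nat.card_Ico, smul_eq_mul, Nat.add_sub_cancel_left]
          · intro c hc
            rw [mem_Ico] at hc
            have hc1 : ¬ c < A := by omega
            simp only [if_neg hc1, if_pos hc.2]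
        · rw [sum_congr rfl (g := fun _ => F (J0 + k) 0)]
          · rw [sum_const, Nat.card_Ico, smul_eq_mul]
            congr 1
            omega
          · intro c hc
            rw [mem_Ico] at hc
            have hc1 : ¬ c < A := by omega
            have hc2 : ¬ c < A + z k := by omega
            simp only [if_neg hc1, if_neg hc2]

/-- patterns of the block -/
lemma pat_block (J0 μ i j : ℕ) (hi : i < μ) (hj : j < μ) (X z : ℕ) (hz : z ≤ X) (hμ : 1 ≤ μ) :
    ((z * pat (J0 + μ) μ (J0 + i) 1 (J0 + j) + (X - z) * pat (J0 + μ) μ (J0 + i) 0 (J0 + j) : ℕ) : ℤ)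
      = (X : ℤ) * (if j < i then (j : ℤ) + 1 else (μ : ℤ) - j + i) - (if j = i then (z : ℤ) else 0) +
        (if j = i + 1 then (z : ℤ) else 0) := by
  obtain ⟨x, rfl⟩ := Nat.exists_eq_add_of_le hz
  rw [Nat.add_sub_cancel_left]
  rcases Nat.lt_trichotomy j i with h | h | h
  · have e1 : pat (J0 + μ) μ (J0 + i) 1 (J0 + j) = j + 1 := by
      unfold pat; rw [if_pos (by omega)]; omega
    have e0 : pat (J0 + μ) μ (J0 + i) 0 (J0 + j) = j + 1 := by
      unfold pat; rw [if_pos (by omega)]; omega
    rw [e1, e0, if_pos h, if_neg (by omega), if_neg (by omega)]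
    push_cast; ring
  · subst h
    rw [pat_at, pat_at, if_neg (lt_irrefl _), if_pos rfl, if_neg (by omega), Nat.sub_zero]
    push_cast [Nat.cast_sub hμ]
    ring
  · rw [if_neg (by omega : ¬ j < i), if_neg (by omega : ¬ j = i)]
    have hji : ((j - i : ℕ) : ℤ) = (j : ℤ) - i := by omega
    have e0 : pat (J0 + μ) μ (J0 + i) 0 (J0 + j) = μ - (j - i) := by
      rw [pat_after (by omega) (by omega), if_neg (by omega)]; omega
    by_cases h2 : j = i + 1
    · have e1 : pat (J0 + μ) μ (J0 + i) 1 (J0 + j) = μ - (j - i) + 1 := by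
        unfold pat
        rw [if_neg (by omega), if_neg (by omega), if_pos (by omega)]; omega
      rw [e0, e1, if_pos h2]
      have : ((μ - (j - i) : ℕ) : ℤ) = (μ : ℤ) - j + i := by omega
      push_cast [this]
      ring
    · have e1 : pat (J0 + μ) μ (J0 + i) 1 (J0 + j) = μ - (j - i) := by
        unfold pat
        rw [if_neg (by omega), if_neg (by omega), if_neg (by omega)]; omega
      rw [e0, e1, if_neg h2]
      have : ((μ - (j - i) : ℕ) : ℤ) = (μ : ℤ) - j + i := by omega
      push_cast [this]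
      ring

/-- **Core theorem.** -/
theorem core (m μ R N0 N : ℕ) (ν b : ℕ → ℕ) (hμ : 1 ≤ μ) (hμm : μ ≤ m) (hν1 : ∀ c, 1 ≤ ν c)
    (hνm : ∀ c, ν c ≤ m) (hpure : ∀ c, N0 ≤ c → ν c = μ) (hR : 2 * m < R)
    (hb : ∀ j < R, 2 * m * m ≤ b j)
    (hb1 : ∀ j, j + 1 < R → b j ≤ b (j + 1) + 1) (hb2 : ∀ j, j + 1 < R → b (j + 1) ≤ b j + 3)
    (hbig : ∀ j < R, R ≤ j + 2 * m → 9 * m ^ 3 ≤ b j)
    (hoth : ∑ c ∈ range N0, (ν c + 1).choose 2 ≤ ∑ j ∈ range (R - 2 * m), b j)
    (htot : ∑ c ∈ range N, (ν c + 1).choose 2 = ∑ j ∈ range R, b j) :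
    Inj (rowsD R (fun y => b (R - 1 - y))) (rows ν (range N)) := by
  classical
  have hm : 1 ≤ m := le_trans hμ hμm
  obtain ⟨T, st, zc, hp, h⟩ := run m μ R N0 ν b hm hν1 hνm hpure hb hb1 hoth (R - μ) le_rfl
  obtain ⟨J0, hJ0⟩ : ∃ J0, R = J0 + μ := ⟨R - μ, by omega⟩
  rw [show R - μ = J0 by omega] at h
  have hT0 : N0 ≤ T := h.pure hν1 (by omega) (by omega) hoth
  set K : ℕ → ℕ := fun i => ∑ c ∈ range T, pat R (ν c) (st c) (zc c) i with hK
  have hm3 : 3 * m * m ≤ 8 * m ^ 3 := by
    have : m * m ≤ m ^ 3 := by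
      have e : m ^ 3 = m * m * m := by ring
      rw [e]; exact Nat.le_mul_of_pos_right _ hm
    nlinarith
  have hbj : ∀ e j, j + e < R → b j ≤ b (j + e) + e := by
    intro e
    induction e with
    | zero => intro j _; simp
    | succ e ih =>
      intro j hj
      have h1 := ih j (by omega)
      have h2 := hb1 (j + e) (by omega)
      rw [← add_assoc j e 1]
      omega
  have hKle : ∀ i, J0 ≤ i → i < R → K i ≤ b i := by
    intro i hi hiR
    have h1 := h.bound hm hνm (j := J0 - 1) (by omega) hi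
    have h2 := hbj (i - (J0 - 1)) (J0 - 1) (by omega)
    rw [show J0 - 1 + (i - (J0 - 1)) = i by omega] at h2
    have h3 : b (J0 - 1) ≤ b i + m := by omega
    have h4 := hbig i hiR (by omega)
    have h5 : m * K i ≤ m * b i := by
      obtain ⟨p, rfl⟩ : ∃ p, m = p + 1 := ⟨m - 1, by omega⟩
      rw [Nat.add_sub_cancel] at h1
      have h6 : 3 * (p + 1) * (p + 1) ≤ b i := by omega
      have h7 : p * (b (J0 - 1) + p) ≤ p * (b i + (p + 1) + p) := Nat.mul_le_mul_left _ (by omega)
      calc (p + 1) * K i ≤ p * (b (J0 - 1) + p) + (p + 1) * p := h1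
        _ ≤ p * (b i + (p + 1) + p) + (p + 1) * p := by omega
        _ ≤ (p + 1) * b i := by nlinarith
    exact Nat.le_of_mul_le_mul_left h5 (by omega)
  have hKdone : ∀ j < J0, K j = b j := h.done
  have htotT := h.total
  have hTN : T ≤ N := by
    by_contra hcon
    push Not at hcon
    have h1 := sum_ch2_lt hν1 hcon
    have h2 : ∑ j ∈ range R, K j ≤ ∑ j ∈ range R, b j := by
      apply sum_le_sum
      intro j hj
      rw [mem_range] at hj
      by_cases hjJ : j < J0
      · rw [hKdone j hjJ]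
      · exact hKle j (by omega) hj
    simp only [hK] at h2
    omega
  obtain ⟨n, rfl⟩ := Nat.exists_eq_add_of_le hTN
  set ρ : ℕ → ℤ := fun t => (b (R - 1 - t) : ℤ) - (K (R - 1 - t) : ℤ) with hρ
  have hρμ : ρ μ = 0 := by
    simp only [hρ]
    rw [hKdone (R - 1 - μ) (by omega)]; ring
  have hρnn : ∀ t < μ, 0 ≤ ρ t := by
    intro t ht
    simp only [hρ]
    have := hKle (R - 1 - t) (by omega) (by omega)
    omega
  have hK0 : K (R - 1) = 0 := by
    apply sum_eq_zero
    intro c hc
    rw [mem_range] at hc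
    have h1 := h.fits c hc
    have h2 := h.zc_lt c hc
    have h3 := h.st_lt c hc
    rw [pat_after (by omega) h2, if_neg (by omega)]
    omega
  have hρ0 : ρ 0 = b (R - 1) := by
    simp only [hρ]
    rw [Nat.sub_zero, hK0]; simp
  have hsumρ : ∑ t ∈ range μ, ρ t = ∑ j ∈ range R, ((b j : ℤ) - K j) := by
    have e1 : ∑ j ∈ range R, ((b j : ℤ) - K j) = ∑ j ∈ range J0, ((b j : ℤ) - K j) +
        ∑ j ∈ Ico J0 R, ((b j : ℤ) - K j) := by
      rw [range_eq_Ico, range_eq_Ico, sum_Ico_consecutive _ (by omega) (by omega)]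
    have e2 : ∑ j ∈ range J0, ((b j : ℤ) - K j) = 0 := by
      apply sum_eq_zero
      intro j hj
      rw [mem_range] at hj
      rw [hKdone j hj]; ring
    rw [e1, e2, zero_add, sum_Ico_eq_sum_range, show R - J0 = μ by omega,
      ← sum_range_reflect]
    apply sum_congr rfl
    intro t ht
    rw [mem_range] at ht
    simp only [hρ]
    rw [show R - 1 - (μ - 1 - t) = J0 + t by omega]
  have hcells : ∑ j ∈ range R, ((b j : ℤ) - K j) = (n : ℤ) * ((μ + 1).choose 2 : ℕ) := by
    rw [sum_sub_distrib]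
    have e1 : (∑ j ∈ range R, (b j : ℤ)) = ((∑ c ∈ range (T + n), (ν c + 1).choose 2 : ℕ) : ℤ) := by
      rw [htot]; push_cast; rfl
    have e2 : (∑ j ∈ range R, (K j : ℤ)) = ((∑ c ∈ range T, (ν c + 1).choose 2 : ℕ) : ℤ) := by
      rw [← htotT]; push_cast [hK]; rfl
    rw [e1, e2]
    have e3 : ∑ c ∈ range (T + n), (ν c + 1).choose 2 = ∑ c ∈ range T, (ν c + 1).choose 2 +
        n * (μ + 1).choose 2 := by
      rw [sum_range_add]
      congr 1
      rw [sum_congr rfl (g := fun _ => (μ + 1).choose 2)]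
      · rw [sum_const, card_range, smul_eq_mul]
      · intro c _
        rw [hpure (T + c) (by omega)]
    rw [e3]; push_cast; ring
  have htotρ : 2 * ∑ t ∈ range μ, ρ t = (n : ℤ) * μ * (μ + 1) := by
    rw [hsumρ, hcells]
    have := two_ch2 μ
    have h2 : (2 : ℤ) * ((μ + 1).choose 2 : ℕ) = (μ : ℤ) * (μ + 1) := by exact_mod_cast this
    calc (2 : ℤ) * ((n : ℤ) * ((μ + 1).choose 2 : ℕ)) = n * (2 * ((μ + 1).choose 2 : ℕ)) := by ring
      _ = _ := by rw [h2]; ring
  have hn1 : 1 ≤ n := by
    by_contra hcon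
    have hn0 : n = 0 := by omega
    have h1 : ∑ t ∈ range μ, ρ t = 0 := by
      have : (n : ℤ) = 0 := by omega
      rw [this] at htotρ; linarith
    have h2 := single_le_sum (f := ρ) (s := range μ) (fun t ht => hρnn t (mem_range.1 ht))
      (mem_range.2 (show 0 < μ by omega))
    have h3 := hbig (R - 1) (by omega) (by omega)
    have h4 : 1 ≤ m ^ 3 := Nat.one_le_pow _ _ hm
    rw [hρ0] at h2
    omega
  -- nominal contributions
  set A : ℕ → ℕ := fun i => ∑ c ∈ range T, (ν c - (i - st c)) with hA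
  have hKA : ∀ i, J0 ≤ i → A i ≤ K i ∧ K i ≤ A i + (m - 1) := by
    intro i hi
    have h1 := h.sum_after hi
    have h2 := h.drop i hi
    simp only [hK, hA]
    omega
  have hKA' : A (J0 - 1) ≤ K (J0 - 1) + (m - 1) := by
    rw [hKdone _ (by omega)]
    exact h.nom (J0 - 1) (by omega)
  have hsd : ∀ i, J0 ≤ i → 2 * A i + ((range T).filter (fun c => st c + ν c = i)).card ≤
      A (i + 1) + A (i - 1) := by
    intro i hi
    simp only [hA]
    rw [mul_sum, card_filter, ← sum_add_distrib, ← sum_add_distrib]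
    apply sum_le_sum
    intro c hc
    rw [mem_range] at hc
    have h1 := h.st_lt c hc
    split_ifs with h2
    · omega
    · omega
  have hcnt : ∀ i, J0 ≤ i → i + 1 < R → 6 * m + 1 ≤
      ((range T).filter (fun c => st c + ν c = i)).card := by
    intro i hi hiR
    have h1 := h.cnt (i - μ) (by omega)
    have h2 := hbig (i - μ) (by omega) (by omega)
    have h3 : ((range T).filter (fun c => st c = i - μ)).card ≤
        ((range T).filter (fun c => st c + ν c = i)).card := by
      apply card_le_card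
      intro c hc
      rw [mem_filter, mem_range] at hc ⊢
      refine ⟨hc.1, ?_⟩
      have := hp c hc.1 (by omega)
      rw [hpure c this]
      omega
    by_contra hcon
    push Not at hcon
    have h4 : ((range T).filter (fun c => st c = i - μ)).card ≤ 6 * m := by omega
    set q := ((range T).filter (fun c => st c = i - μ)).card
    have h5 : m * (m * q) ≤ m * (m * (6 * m)) :=
      Nat.mul_le_mul_left _ (Nat.mul_le_mul_left _ h4)
    have h6 : m * (m * (6 * m)) = 6 * m ^ 3 := by ring
    have h7 : m * m ≤ m ^ 3 := by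
      have e : m ^ 3 = m * m * m := by ring
      rw [e]; exact Nat.le_mul_of_pos_right _ hm
    nlinarith
  obtain ⟨X, z, hXz, hzlast, hXn, hblock⟩ := block (n : ℤ) ρ μ hμ (by positivity) hρμ htotρ (by
    intro u hu1 hu2
    have e1 : R - 1 - (u + 1) = R - 1 - u - 1 := by omega
    have e2 : R - 1 - (u - 1) = R - 1 - u + 1 := by omega
    simp only [hρ]
    rw [e1, e2]
    set i := R - 1 - u with hi
    have hiJ : J0 ≤ i := by omega
    have c1 := hcnt i hiJ (by omega)
    have c2 := hsd i hiJ
    have c3 := hKA i hiJ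
    have c4 := hKA (i + 1) (by omega)
    have c5 : A (i - 1) ≤ K (i - 1) + (m - 1) := by
      by_cases h7 : J0 ≤ i - 1
      · have := hKA (i - 1) h7
        omega
      · rw [show i - 1 = J0 - 1 by omega]; exact hKA'
    have c6 := hb1 (i - 1) (by omega)
    rw [show i - 1 + 1 = i by omega] at c6
    have c7 := hb2 i (by omega)
    omega) (by
    by_cases h1 : μ = 1
    · subst h1
      rw [hρμ, hρ0]; positivity
    · rw [hρ0]
      simp only [hρ]
      have c6 := hb1 (R - 1 - 1) (by omega)
      rw [show R - 1 - 1 + 1 = R - 1 by omega] at c6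
      have : (0 : ℤ) ≤ K (R - 1 - 1) := by positivity
      omega)
  -- natural numbers
  have hXnn : ∀ j < μ, 0 ≤ X j := fun j hj => le_trans (hXz j hj).1 (hXz j hj).2
  have hXsum : ∑ i ∈ range μ, (X i).toNat = n := by
    have : ((∑ i ∈ range μ, (X i).toNat : ℕ) : ℤ) = n := by
      rw [← hXn]; push_cast
      apply sum_congr rfl
      intro i hi
      rw [mem_range] at hi
      exact Int.toNat_of_nonneg (hXnn i hi)
    exact_mod_cast this
  obtain ⟨s, w, hs, hF⟩ := dist J0 T (fun i => (X i).toNat) (fun i => (z i).toNat) μ (by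
    intro i hi
    exact Int.toNat_le_toNat (hXz i hi).2)
  rw [hXsum] at hs hF
  apply fill_inj R (T + n) ν (fun c => if c < T then st c else s c)
    (fun c => if c < T then zc c else w c) b
  · intro c hc
    by_cases hcT : c < T
    · simp only [if_pos hcT]
      have h1 := h.fits c hcT
      have h2 := h.zc_lt c hcT
      omega
    · simp only [if_neg hcT]
      obtain ⟨i, hi, e1, e2⟩ := hs c (by omega) hc
      rw [e1]
      rcases e2 with e2 | ⟨e2, e3⟩
      · rw [e2]; omega
      · rw [e2]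
        by_cases h4 : i = μ - 1
        · rw [h4, hzlast] at e3; simp at e3
        · omega
  · intro c hc
    by_cases hcT : c < T
    · simp only [if_pos hcT]
      exact (h.zc_lt c hcT).le
    · simp only [if_neg hcT]
      obtain ⟨i, hi, e1, e2⟩ := hs c (by omega) hc
      have := hν1 c
      rcases e2 with e2 | ⟨e2, e3⟩ <;> omega
  · intro j hj
    have esum : ∑ c ∈ range (T + n), pat R (ν c) ((fun c => if c < T then st c else s c) c)
        ((fun c => if c < T then zc c else w c) c) j = K j +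
          ∑ c ∈ Ico T (T + n), pat R μ (s c) (w c) j := by
      rw [range_eq_Ico, ← sum_Ico_consecutive _ (show 0 ≤ T by omega) (show T ≤ T + n by omega),
        ← range_eq_Ico]
      congr 1
      · apply sum_congr rfl
        intro c hc
        rw [mem_range] at hc
        simp only [if_pos hc]
      · apply sum_congr rfl
        intro c hc
        rw [mem_Ico] at hc
        simp only [if_neg (show ¬ c < T by omega)]
        rw [hpure c (by omega)]
    rw [esum]
    by_cases hjJ : j < J0
    · rw [hKdone j hjJ]; omega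
    · obtain ⟨j', rfl⟩ : ∃ j', j = J0 + j' := ⟨j - J0, by omega⟩
      have hj' : j' < μ := by omega
      rw [hF (fun a d => pat R μ a d (J0 + j'))]
      have key : ((∑ i ∈ range μ, ((z i).toNat * pat R μ (J0 + i) 1 (J0 + j') +
          ((X i).toNat - (z i).toNat) * pat R μ (J0 + i) 0 (J0 + j')) : ℕ) : ℤ) = ρ (μ - 1 - j') := by
        rw [← hblock j' hj', hJ0]
        rw [Nat.cast_sum]
        have e1 : ∀ i ∈ range μ, (((z i).toNat * pat (J0 + μ) μ (J0 + i) 1 (J0 + j') +
          ((X i).toNat - (z i).toNat) * pat (J0 + μ) μ (J0 + i) 0 (J0 + j') : ℕ) : ℤ) =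
            X i * (if j' < i then (j' : ℤ) + 1 else (μ : ℤ) - j' + i) -
              (if j' = i then z i else 0) + (if j' = i + 1 then z i else 0) := by
          intro i hi
          rw [mem_range] at hi
          rw [pat_block J0 μ i j' hi hj' _ _ (Int.toNat_le_toNat (hXz i hi).2) hμ]
          rw [Int.toNat_of_nonneg (hXnn i hi), Int.toNat_of_nonneg (hXz i hi).1]
        rw [sum_congr rfl e1, sum_add_distrib, sum_sub_distrib]
        congr 1
        · congr 1
          rw [sum_ite_eq, if_pos (mem_range.2 hj')]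
        · by_cases hj0 : j' = 0
          · subst hj0
            simp
          · rw [if_neg hj0]
            rw [sum_eq_single (j' - 1)]
            · rw [if_pos (by omega)]
            · intro i _ hne
              rw [if_neg (by omega)]
            · intro hn
              exfalso; apply hn; rw [mem_range]; omega
      have hρv : ρ (μ - 1 - j') = (b (J0 + j') : ℤ) - K (J0 + j') := by
        simp only [hρ]
        rw [show R - 1 - (μ - 1 - j') = J0 + j' by omega]
      rw [hρv] at key
      omega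

end Pool.Agent.Helper43.Ah
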