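import Mathlib
import Pool.Agent.Helper43.Ah.Core

/-!
Sets of monomials on which general fat points of small multiplicity impose conditions of the
expected rank: the general profile theorem.
-/

set_option autoImplicit false
set_option linter.unusedSectionVars false

namespace Pool.Agent.Helper43.Ah

open Finset Pool.Agent.Lead.Sh

/-- general fat points of multiplicities at most `m` impose conditions of maximal rank on `D` -/
def Good (m : ℕ) (D : Finset (ℕ × ℕ)) : Prop :=
  ∀ (s : Finset ℕ) (mm : ℕ → ℕ), (∀ k ∈ s, mm k ≤ m) →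
    (D.card ≤ ∑ k ∈ s, (mm k + 1).choose 2 → Inj D (rows mm s)) ∧
    (∑ k ∈ s, (mm k + 1).choose 2 ≤ D.card → Ind D (rows mm s))

lemma rows_congr {mm mm' : ℕ → ℕ} {s : Finset ℕ} (h : ∀ k ∈ s, mm k = mm' k) :
    rows mm s = rows mm' s := by
  ext r
  rw [mem_rows, mem_rows]
  constructor
  · rintro ⟨h1, h2⟩; exact ⟨h1, by rw [← h _ h1]; exact h2⟩
  · rintro ⟨h1, h2⟩; exact ⟨h1, by rw [h _ h1]; exact h2⟩

lemma inj_relabel {D : Finset (ℕ × ℕ)} {mm mm' : ℕ → ℕ} {s s' : Finset ℕ} (f : ℕ → ℕ)
    (hf : ∀ k ∈ s, f k ∈ s') (hinj : ∀ k ∈ s, ∀ k' ∈ s, f k = f k' → k = k')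
    (hmm : ∀ k ∈ s, mm' (f k) = mm k) (h : Inj D (rows mm s)) : Inj D (rows mm' s') := by
  classical
  obtain ⟨P, hP⟩ := h
  set g : ℕ → ℕ := fun j => if h : ∃ k ∈ s, f k = j then h.choose else 0 with hg0
  have hg : ∀ k ∈ s, g (f k) = k := by
    intro k hk
    have hex : ∃ k' ∈ s, f k' = f k := ⟨k, hk, rfl⟩
    simp only [hg0]
    rw [dif_pos hex]
    exact hinj _ hex.choose_spec.1 _ hk hex.choose_spec.2
  refine ⟨fun j => P (g j), ?_⟩
  intro c hc
  apply hP
  intro r hr
  rw [mem_rows] at hr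
  have := hc (f r.1, r.2) (by
    rw [mem_rows]
    refine ⟨hf _ hr.1, ?_⟩
    show r.2.1 + r.2.2 < mm' (f r.1)
    rw [hmm _ hr.1]; exact hr.2)
  simp only [hg r.1 hr.1] at this
  exact this

lemma enum (A : Finset ℕ) : ∃ e : ℕ → ℕ, (∀ c < A.card, e c ∈ A) ∧
    (∀ c < A.card, ∀ c' < A.card, e c = e c' → c = c') ∧
    ∀ g : ℕ → ℕ, ∑ c ∈ range A.card, g (e c) = ∑ a ∈ A, g a := by
  classical
  set e : ℕ → ℕ := fun c => if h : c < A.card then (A.orderEmbOfFin rfl ⟨c, h⟩ : ℕ) else 0 with he
  have h1 : ∀ c < A.card, e c ∈ A := by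
    intro c hc
    simp only [he]
    rw [dif_pos hc]
    exact A.orderEmbOfFin_mem rfl _
  have h2 : ∀ c < A.card, ∀ c' < A.card, e c = e c' → c = c' := by
    intro c hc c' hc' hee
    simp only [he] at hee
    rw [dif_pos hc, dif_pos hc'] at hee
    have := (A.orderEmbOfFin rfl).injective hee
    simpa using this
  refine ⟨e, h1, h2, ?_⟩
  intro g
  have h3 : (range A.card).image e = A := by
    apply eq_of_subset_of_card_le
    · intro x hx
      rw [mem_image] at hx
      obtain ⟨c, hc, rfl⟩ := hx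
      exact h1 c (mem_range.1 hc)
    · rw [card_image_of_injOn, card_range]
      intro c hc c' hc' hee
      exact h2 c (by simpa using hc) c' (by simpa using hc') hee
  conv_rhs => rw [← h3]
  rw [sum_image]
  intro c hc c' hc' hee
  exact h2 c (by simpa using hc) c' (by simpa using hc') hee

lemma rowsD_congr {R : ℕ} {H H' : ℕ → ℕ} (h : ∀ y < R, H y = H' y) : rowsD R H = rowsD R H' := by
  ext d
  rw [mem_rowsD, mem_rowsD]
  constructor
  · rintro ⟨h1, h2⟩; exact ⟨h1, by rw [← h _ h1]; exact h2⟩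
  · rintro ⟨h1, h2⟩; exact ⟨h1, by rw [h _ h1]; exact h2⟩

/-- exact totals -/
theorem near (m μ R n : ℕ) (b' : ℕ → ℕ) (E : Finset (ℕ × ℕ)) (hμ : 1 ≤ μ) (hμm : μ ≤ m)
    (hE : ∀ d ∈ E, R ≤ d.2) (hEi : Inj E (rows (fun _ => μ) (range n)))
    (s : Finset ℕ) (mm : ℕ → ℕ) (h1 : ∀ k ∈ s, 1 ≤ mm k) (hmm : ∀ k ∈ s, mm k ≤ m)
    (hR : 2 * m < R) (hb : ∀ y < R, 2 * m * m ≤ b' y)
    (hb1 : ∀ y, y + 1 < R → b' (y + 1) ≤ b' y + 1) (hb2 : ∀ y, y + 1 < R → b' y ≤ b' (y + 1) + 3)
    (hbig : ∀ y < 2 * m, 9 * m ^ 3 ≤ b' y)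
    (htot : ∑ k ∈ s, (mm k + 1).choose 2 = n * (μ + 1).choose 2 + ∑ y ∈ range R, b' y)
    (hn : n * (μ + 1).choose 2 + ∑ y ∈ range (2 * m), b' y ≤
      (s.filter (fun k => mm k = μ)).card * (μ + 1).choose 2) :
    Inj (rowsD R b' ∪ E) (rows mm s) := by
  classical
  set Cμ := (μ + 1).choose 2 with hCμ
  have hCpos : 1 ≤ Cμ := ch2_pos hμ
  set sμ := s.filter (fun k => mm k = μ) with hsμ
  set oth := s.filter (fun k => ¬ mm k = μ) with hoth
  have hnc : n ≤ sμ.card := by
    have : n * Cμ ≤ sμ.card * Cμ := by omega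
    exact Nat.le_of_mul_le_mul_right this (by omega)
  obtain ⟨sE, hsE, hsEc⟩ := exists_subset_card_eq hnc
  set rest := sμ \ sE with hrest
  have hrestc : rest.card + n = sμ.card := by
    rw [hrest, card_sdiff_of_subset hsE, hsEc]; omega
  obtain ⟨e1, e1m, e1i, e1s⟩ := enum oth
  obtain ⟨e2, e2m, e2i, e2s⟩ := enum rest
  obtain ⟨e3, e3m, e3i, e3s⟩ := enum sE
  set N0 := oth.card with hN0
  set ν : ℕ → ℕ := fun c => if c < N0 then mm (e1 c) else μ with hν
  have hothm : ∀ k ∈ oth, k ∈ s ∧ mm k ≠ μ := fun k hk => mem_filter.1 hk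
  have hrestm : ∀ k ∈ rest, k ∈ s ∧ mm k = μ ∧ k ∉ sE := by
    intro k hk
    rw [hrest, mem_sdiff, hsμ, mem_filter] at hk
    exact ⟨hk.1.1, hk.1.2, hk.2⟩
  have hsEm : ∀ k ∈ sE, k ∈ s ∧ mm k = μ := fun k hk => mem_filter.1 (hsE hk)
  -- sums
  have hsum1 : ∑ k ∈ s, (mm k + 1).choose 2 = ∑ k ∈ oth, (mm k + 1).choose 2 + sμ.card * Cμ := by
    rw [← sum_filter_add_sum_filter_not s (fun k => mm k = μ), add_comm]
    congr 1
    rw [sum_congr rfl (g := fun _ => Cμ)]
    · rw [sum_const, smul_eq_mul]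
    · intro k hk
      rw [(mem_filter.1 hk).2]
  have hsumoth : ∑ c ∈ range N0, (ν c + 1).choose 2 = ∑ k ∈ oth, (mm k + 1).choose 2 := by
    rw [← e1s (fun k => (mm k + 1).choose 2)]
    apply sum_congr rfl
    intro c hc
    rw [mem_range] at hc
    simp only [hν, if_pos hc]
  have hrefl : ∀ K ≤ R, ∑ j ∈ range K, b' (R - 1 - j) = ∑ y ∈ Ico (R - K) R, b' y := by
    intro K hK
    rw [sum_Ico_eq_sum_range, show R - (R - K) = K by omega, ← sum_range_reflect]
    apply sum_congr rfl
    intro j hj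
    rw [mem_range] at hj
    congr 1
    omega
  have hsplitb : ∑ y ∈ range R, b' y = ∑ y ∈ range (2 * m), b' y + ∑ y ∈ Ico (2 * m) R, b' y := by
    rw [range_eq_Ico, range_eq_Ico, sum_Ico_consecutive _ (by omega) (by omega)]
  have hcore := core m μ R N0 (N0 + rest.card) ν (fun j => b' (R - 1 - j)) hμ hμm (by
      intro c
      simp only [hν]
      split_ifs with hc
      · exact h1 _ (hothm _ (e1m c hc)).1
      · exact hμ) (by
      intro c
      simp only [hν]
      split_ifs with hc
      · exact hmm _ (hothm _ (e1m c hc)).1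
      · exact hμm) (by
      intro c hc
      simp only [hν]
      rw [if_neg (by omega)]) hR (by
      intro j hj
      exact hb _ (by omega)) (by
      intro j hj
      have := hb1 (R - 1 - (j + 1)) (by omega)
      rw [show R - 1 - (j + 1) + 1 = R - 1 - j by omega] at this
      exact this) (by
      intro j hj
      have := hb2 (R - 1 - (j + 1)) (by omega)
      rw [show R - 1 - (j + 1) + 1 = R - 1 - j by omega] at this
      exact this) (by
      intro j hj hj2
      exact hbig _ (by omega)) (by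
      rw [hrefl _ (by omega), show R - (R - 2 * m) = 2 * m by omega, hsumoth]
      omega) (by
      rw [hrefl R le_rfl, Nat.sub_self, ← range_eq_Ico, sum_range_add, hsumoth]
      have : ∑ x ∈ range rest.card, (ν (N0 + x) + 1).choose 2 = rest.card * Cμ := by
        rw [sum_congr rfl (g := fun _ => Cμ)]
        · rw [sum_const, smul_eq_mul, card_range]
        · intro c _
          simp only [hν]
          rw [if_neg (by omega)]
      rw [this]
      have h2 : rest.card * Cμ + n * Cμ = sμ.card * Cμ := by rw [← add_mul, hrestc]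
      omega)
  have hcong : rowsD R (fun y => b' (R - 1 - (R - 1 - y))) = rowsD R b' := by
    apply rowsD_congr
    intro y hy
    rw [show R - 1 - (R - 1 - y) = y by omega]
  rw [hcong] at hcore
  -- relabel
  have hA : Inj (rowsD R b') (rows mm (oth ∪ rest)) := by
    apply inj_relabel (fun c => if c < N0 then e1 c else e2 (c - N0)) _ _ _ hcore
    · intro c hc
      rw [mem_range] at hc
      rw [mem_union]
      by_cases hcN : c < N0
      · left; simp only [if_pos hcN]; exact e1m c hcN
      · right; simp only [if_neg hcN]; exact e2m _ (by omega)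
    · intro c hc c' hc' hee
      rw [mem_range] at hc hc'
      by_cases hcN : c < N0
      · by_cases hcN' : c' < N0
        · simp only [if_pos hcN, if_pos hcN'] at hee
          exact e1i c hcN c' hcN' hee
        · simp only [if_pos hcN, if_neg hcN'] at hee
          exfalso
          have a1 := (hothm _ (e1m c hcN)).2
          have a2 := (hrestm _ (e2m (c' - N0) (by omega))).2.1
          rw [hee] at a1
          exact a1 a2
      · by_cases hcN' : c' < N0
        · simp only [if_neg hcN, if_pos hcN'] at hee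
          exfalso
          have a1 := (hothm _ (e1m c' hcN')).2
          have a2 := (hrestm _ (e2m (c - N0) (by omega))).2.1
          rw [← hee] at a1
          exact a1 a2
        · simp only [if_neg hcN, if_neg hcN'] at hee
          have := e2i (c - N0) (by omega) (c' - N0) (by omega) hee
          omega
    · intro c hc
      rw [mem_range] at hc
      by_cases hcN : c < N0
      · simp only [hν, if_pos hcN]
      · simp only [hν, if_neg hcN]
        exact (hrestm _ (e2m _ (by omega))).2.1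
  have hB : Inj E (rows mm sE) := by
    apply inj_relabel e3 _ _ _ hEi
    · intro c hc
      rw [mem_range] at hc
      exact e3m c (by omega)
    · intro c hc c' hc' hee
      rw [mem_range] at hc hc'
      exact e3i c (by omega) c' (by omega) hee
    · intro c hc
      rw [mem_range] at hc
      exact (hsEm _ (e3m c (by omega))).2
  have hG := Inj.glue' (w := (0, 1)) (c' := R) hA hB (by
    intro d hd
    rw [mem_rowsD] at hd
    simp only [wt]; omega) (by
    intro d hd
    have := hE d hd
    simp only [wt]; omega) (by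
    apply rows_disj
    rw [disjoint_left]
    intro k hk hk2
    rcases mem_union.1 hk with hk | hk
    · exact (hothm _ hk).2 (hsEm _ hk2).2
    · exact (hrestm _ hk).2.2 hk2)
  rw [← rows_union] at hG
  refine hG.mono subset_rfl (rows_mono ?_)
  intro k hk
  rcases mem_union.1 hk with hk | hk
  · rcases mem_union.1 hk with hk | hk
    · exact (hothm _ hk).1
    · exact (hrestm _ hk).1
  · exact (hsEm _ hk).1

/-- some multiplicity is frequent -/
lemma pigeon (m : ℕ) (hm : 1 ≤ m) (s : Finset ℕ) (mm : ℕ → ℕ) (h1 : ∀ k ∈ s, 1 ≤ mm k)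
    (hmm : ∀ k ∈ s, mm k ≤ m) : ∃ μ, 1 ≤ μ ∧ μ ≤ m ∧ ∑ k ∈ s, (mm k + 1).choose 2 ≤
      m * ((s.filter (fun k => mm k = μ)).card * (μ + 1).choose 2) := by
  classical
  set S := ∑ k ∈ s, (mm k + 1).choose 2 with hS
  have hfib : S = ∑ μ ∈ Icc 1 m, (s.filter (fun k => mm k = μ)).card * (μ + 1).choose 2 := by
    rw [hS, ← sum_fiberwise_of_maps_to (g := mm) (t := Icc 1 m)]
    · apply sum_congr rfl
      intro μ _
      rw [sum_congr rfl (g := fun _ => (μ + 1).choose 2)]
      · rw [sum_const, smul_eq_mul]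
      · intro k hk
        rw [(mem_filter.1 hk).2]
    · intro k hk
      rw [mem_Icc]
      exact ⟨h1 k hk, hmm k hk⟩
  obtain ⟨μ, hμ, hle⟩ := exists_le_of_sum_le (s := Icc 1 m) (f := fun _ => S)
    (g := fun μ => m * ((s.filter (fun k => mm k = μ)).card * (μ + 1).choose 2))
    ⟨1, mem_Icc.2 ⟨le_rfl, hm⟩⟩ (by
      rw [sum_const, ← mul_sum, ← hfib, Nat.card_Icc, Nat.add_sub_cancel, smul_eq_mul])
  rw [mem_Icc] at hμ
  exact ⟨μ, hμ.1, hμ.2, hle⟩

lemma choose_mono {a m : ℕ} (h : a ≤ m) : (a + 1).choose 2 ≤ (m + 1).choose 2 :=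
  Nat.choose_le_choose 2 (by omega)

/-- a subset of the points with total just above -/
lemma subtotal (m T : ℕ) (hm : 1 ≤ m) (mm : ℕ → ℕ) (s : Finset ℕ) (hmm : ∀ k ∈ s, mm k ≤ m)
    (h : T ≤ ∑ k ∈ s, (mm k + 1).choose 2) : ∃ s' ⊆ s, T ≤ ∑ k ∈ s', (mm k + 1).choose 2 ∧
      ∑ k ∈ s', (mm k + 1).choose 2 < T + (m + 1).choose 2 := by
  classical
  induction s using Finset.induction_on with
  | empty =>
    refine ⟨∅, subset_rfl, h, ?_⟩
    have := ch2_pos hm
    rw [sum_empty]
    omega
  | insert a s ha ih =>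
    by_cases h2 : T ≤ ∑ k ∈ s, (mm k + 1).choose 2
    · obtain ⟨s', hs', h3⟩ := ih (fun k hk => hmm k (mem_insert_of_mem hk)) h2
      exact ⟨s', hs'.trans (subset_insert _ _), h3⟩
    · refine ⟨insert a s, subset_rfl, h, ?_⟩
      rw [sum_insert ha]
      have := choose_mono (hmm a (mem_insert_self _ _))
      omega

theorem profile_gen (m : ℕ) (hm : 1 ≤ m) (D : Finset (ℕ × ℕ)) (H : ℕ → ℕ)
    (h : ∀ μ, 1 ≤ μ → μ ≤ m → ∃ (R n : ℕ) (E : Finset (ℕ × ℕ)), D = rowsD R H ∪ E ∧
      (∀ d ∈ E, R ≤ d.2) ∧ E.card = n * (μ + 1).choose 2 ∧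
      Inj E (rows (fun _ => μ) (range n)) ∧ 2 * m < R ∧ (m + 1).choose 2 ≤ R ∧
      (∀ y < R, 2 * m * m + 1 ≤ H y) ∧ (∀ y, y + 1 < R → H (y + 1) ≤ H y) ∧
      (∀ y, y + 1 < R → H y ≤ H (y + 1) + 2) ∧ (∀ y < 2 * m, 9 * m ^ 3 + 1 ≤ H y) ∧
      m * (E.card + ∑ y ∈ range (2 * m), (H y + 1)) + (m + 1).choose 2 ≤ D.card) : Good m D := by
  classical
  intro s0 mm hmm0
  set s := s0.filter (fun k => 0 < mm k) with hs
  have hrows : rows mm s0 = rows mm s := by
    ext r
    rw [mem_rows, mem_rows, hs, mem_filter]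
    constructor
    · rintro ⟨a, b⟩; exact ⟨⟨a, by omega⟩, b⟩
    · rintro ⟨⟨a, _⟩, b⟩; exact ⟨a, b⟩
  have hsum0 : ∑ k ∈ s0, (mm k + 1).choose 2 = ∑ k ∈ s, (mm k + 1).choose 2 := by
    rw [hs, sum_filter]
    apply sum_congr rfl
    intro k _
    split_ifs with h1
    · rfl
    · rw [show mm k = 0 by omega]; rfl
  rw [hrows, hsum0]
  have h1 : ∀ k ∈ s, 1 ≤ mm k := fun k hk => (mem_filter.1 hk).2
  have hmm : ∀ k ∈ s, mm k ≤ m := fun k hk => hmm0 k (mem_filter.1 hk).1
  have hCpos : 1 ≤ (m + 1).choose 2 := ch2_pos hm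
  have hcardU : ∀ (R : ℕ) (b : ℕ → ℕ) (E : Finset (ℕ × ℕ)), (∀ d ∈ E, R ≤ d.2) →
      (rowsD R b ∪ E).card = ∑ y ∈ range R, b y + E.card := by
    intro R b E hE
    rw [card_union_of_disjoint, card_rowsD]
    rw [disjoint_left]
    intro d hd hd2
    rw [mem_rowsD] at hd
    have := hE d hd2
    omega
  constructor
  · intro hT
    obtain ⟨s', hs', hT1, hT2⟩ := subtotal m D.card hm mm s hmm hT
    obtain ⟨δ, hδ⟩ := Nat.exists_eq_add_of_le hT1
    obtain ⟨μ, hμ, hμm, hpig⟩ := pigeon m hm s' mm (fun k hk => h1 k (hs' hk))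
      (fun k hk => hmm k (hs' hk))
    obtain ⟨R, n, E, hD, hE, hEc, hEi, hR, hRC, hH, hH1, hH2, hH3, hbd⟩ := h μ hμ hμm
    have hDc : D.card = ∑ y ∈ range R, H y + E.card := by rw [hD]; exact hcardU R H E hE
    have hδR : δ ≤ R := by omega
    set b' : ℕ → ℕ := fun y => if R - δ ≤ y then H y + 1 else H y with hb'
    have hb'1 : ∀ y, H y ≤ b' y ∧ b' y ≤ H y + 1 := by
      intro y; simp only [hb']; split_ifs <;> omega
    have hsb : ∑ y ∈ range R, b' y = ∑ y ∈ range R, H y + δ := by
      have : ∀ y ∈ range R, b' y = H y + (if R - δ ≤ y then 1 else 0) := by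
        intro y _; simp only [hb']; split_ifs <;> omega
      rw [sum_congr rfl this, sum_add_distrib, ← card_filter]
      congr 1
      have : (range R).filter (fun y => R - δ ≤ y) = Ico (R - δ) R := by
        ext y; rw [mem_filter, mem_range, mem_Ico]; omega
      rw [this, Nat.card_Ico]; omega
    have hInj := near m μ R n b' E hμ hμm hE hEi s' mm (fun k hk => h1 k (hs' hk))
      (fun k hk => hmm k (hs' hk)) hR (by
        intro y hy
        have a1 := hH y hy
        have a2 := (hb'1 y).1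
        omega) (by
        intro y hy
        have a1 := hH1 y hy
        simp only [hb']
        split_ifs <;> omega) (by
        intro y hy
        have a1 := hH2 y hy
        simp only [hb']
        split_ifs <;> omega) (by
        intro y hy
        have a1 := hH3 y hy
        have a2 := (hb'1 y).1
        omega) (by
        rw [hδ, hDc, hsb, hEc]; ring) (by
        have a1 : ∑ y ∈ range (2 * m), b' y ≤ ∑ y ∈ range (2 * m), (H y + 1) :=
          sum_le_sum (fun y _ => (hb'1 y).2)
        have a2 : m * (E.card + ∑ y ∈ range (2 * m), (H y + 1)) ≤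
            m * ((s'.filter (fun k => mm k = μ)).card * (μ + 1).choose 2) := by omega
        have a3 := Nat.le_of_mul_le_mul_left a2 (by omega)
        rw [← hEc]
        omega)
    refine hInj.mono ?_ (rows_mono hs')
    rw [hD]
    apply union_subset_union_left
    intro d hd
    rw [mem_rowsD] at hd ⊢
    exact ⟨hd.1, lt_of_lt_of_le hd.2 (hb'1 _).1⟩
  · intro hT
    set C := (m + 1).choose 2 with hC
    set t := (D.card - ∑ k ∈ s, (mm k + 1).choose 2) / C with ht
    set B := s.sup id + 1 with hB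
    have hsB : ∀ k ∈ s, k < B := by
      intro k hk
      have : k ≤ s.sup id := le_sup (f := id) hk
      omega
    set mp : ℕ → ℕ := fun k => if k < B then mm k else m with hmp
    set sp := s ∪ Ico B (B + t) with hsp
    have hdj : Disjoint s (Ico B (B + t)) := by
      rw [disjoint_left]
      intro k hk hk2
      rw [mem_Ico] at hk2
      have := hsB k hk
      omega
    have hmps : ∀ k ∈ s, mm k = mp k := by
      intro k hk
      simp only [hmp]
      rw [if_pos (hsB k hk)]
    have hsump : ∑ k ∈ sp, (mp k + 1).choose 2 = ∑ k ∈ s, (mm k + 1).choose 2 + t * C := by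
      rw [hsp, sum_union hdj]
      congr 1
      · apply sum_congr rfl
        intro k hk
        rw [hmps k hk]
      · rw [sum_congr rfl (g := fun _ => C)]
        · rw [sum_const, smul_eq_mul, Nat.card_Ico, Nat.add_sub_cancel_left]
        · intro k hk
          rw [mem_Ico] at hk
          simp only [hmp]
          rw [if_neg (by omega)]
    have hdiv : t * C ≤ D.card - ∑ k ∈ s, (mm k + 1).choose 2 := Nat.div_mul_le_self _ _
    have hdiv2 : D.card - ∑ k ∈ s, (mm k + 1).choose 2 < t * C + C := by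
      have := Nat.lt_div_mul_add (a := D.card - ∑ k ∈ s, (mm k + 1).choose 2) (b := C) (by omega)
      exact this
    obtain ⟨δ, hδ⟩ := Nat.exists_eq_add_of_le
      (show ∑ k ∈ sp, (mp k + 1).choose 2 ≤ D.card by omega)
    have h1p : ∀ k ∈ sp, 1 ≤ mp k := by
      intro k hk
      rcases mem_union.1 hk with hk | hk
      · rw [← hmps k hk]; exact h1 k hk
      · rw [mem_Ico] at hk
        simp only [hmp]
        rw [if_neg (by omega)]; exact hm
    have hmmp : ∀ k ∈ sp, mp k ≤ m := by
      intro k hk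
      rcases mem_union.1 hk with hk | hk
      · rw [← hmps k hk]; exact hmm k hk
      · rw [mem_Ico] at hk
        simp only [hmp]
        rw [if_neg (by omega)]
    obtain ⟨μ, hμ, hμm, hpig⟩ := pigeon m hm sp mp h1p hmmp
    obtain ⟨R, n, E, hD, hE, hEc, hEi, hR, hRC, hH, hH1, hH2, hH3, hbd⟩ := h μ hμ hμm
    have hDc : D.card = ∑ y ∈ range R, H y + E.card := by rw [hD]; exact hcardU R H E hE
    have hδC : δ < C := by omega
    have hδR : δ ≤ R := by omega
    set b' : ℕ → ℕ := fun y => if R - δ ≤ y then H y - 1 else H y with hb'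
    have hb'1 : ∀ y, H y ≤ b' y + 1 ∧ b' y ≤ H y := by
      intro y; simp only [hb']; split_ifs <;> omega
    have hsb : ∑ y ∈ range R, b' y + δ = ∑ y ∈ range R, H y := by
      have : ∀ y ∈ range R, H y = b' y + (if R - δ ≤ y then 1 else 0) := by
        intro y hy
        rw [mem_range] at hy
        have := hH y hy
        simp only [hb']; split_ifs <;> omega
      rw [sum_congr rfl this, sum_add_distrib, ← card_filter]
      congr 1
      have : (range R).filter (fun y => R - δ ≤ y) = Ico (R - δ) R := by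
        ext y; rw [mem_filter, mem_range, mem_Ico]; omega
      rw [this, Nat.card_Ico]; omega
    have hInj := near m μ R n b' E hμ hμm hE hEi sp mp h1p hmmp hR (by
        intro y hy
        have a1 := hH y hy
        have a2 := (hb'1 y).1
        omega) (by
        intro y hy
        have a1 := hH1 y hy
        simp only [hb']
        split_ifs <;> omega) (by
        intro y hy
        have a1 := hH2 y hy
        simp only [hb']
        split_ifs <;> omega) (by
        intro y hy
        have a1 := hH3 y hy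
        have a2 := (hb'1 y).1
        omega) (by
        rw [← hEc]; omega) (by
        have a1 : ∑ y ∈ range (2 * m), b' y ≤ ∑ y ∈ range (2 * m), (H y + 1) :=
          sum_le_sum (fun y _ => le_trans (hb'1 y).2 (Nat.le_succ _))
        have a2 : m * (E.card + ∑ y ∈ range (2 * m), (H y + 1)) ≤
            m * ((sp.filter (fun k => mp k = μ)).card * (μ + 1).choose 2) := by omega
        have a3 := Nat.le_of_mul_le_mul_left a2 (by omega)
        rw [← hEc]
        omega)
    obtain ⟨P, hP⟩ := hInj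
    have hInd : Ind (rowsD R b' ∪ E) (rows mp sp) := ⟨P, hP.ind (by
      rw [card_rows, hcardU R b' E hE]
      omega)⟩
    refine hInd.mono ?_ ?_
    · rw [hD]
      apply union_subset_union_left
      intro d hd
      rw [mem_rowsD] at hd ⊢
      exact ⟨hd.1, lt_of_lt_of_le hd.2 (hb'1 _).2⟩
    · rw [rows_congr hmps]
      exact rows_mono subset_union_left

end Pool.Agent.Helper43.Ah
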